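import Pool.Agent.V11165.SNP.Comp

/-!
# The counterexample: `X_G` is Schur-positive but not SNP
-/

set_option autoImplicit false

namespace Pool.Agent.V11165.SNP

open MvPolynomial

theorem check_all : ∀ l ∈ partsF 12 12 12, ev (peelAll l cvec) initS = Nm 12 4095 l := by
  decide +kernel

lemma cvec_desc : ∀ p ∈ cvec, Desc p.1 ∧ p.1.sum = 12 := by
  unfold Desc
  decide +kernel

lemma FF_full : FF 4095 = Finset.univ := by
  decide +kernel

/-- Sorted positive version of a list. -/
lemma cnt_reduce (β : List ℕ) : ∃ l : List ℕ, l.Pairwise (fun a b => b ≤ a) ∧ (∀ b ∈ l, 0 < b) ∧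
    l.sum = β.sum ∧
    (∀ H, cnt (stepG G12) initG β H = cnt (stepG G12) initG l H) ∧
    (∀ s, Desc s → cnt stepS initS β s = cnt stepS initS l s) := by
  set γ := β.filter (fun b => b ≠ 0) with hγ
  have hsum : γ.sum = β.sum := by
    rw [hγ]
    clear hγ γ
    induction β with
    | nil => rfl
    | cons b β ih =>
      by_cases hb : b = 0
      · subst hb
        simpa using ih
      · rw [List.filter_cons_of_pos (by simpa using hb), List.sum_cons, List.sum_cons, ih]
  refine ⟨γ.insertionSort (fun a b => b ≤ a), ?_, ?_, ?_, ?_, ?_⟩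
  · exact List.pairwise_insertionSort (fun a b => b ≤ a) γ
  · intro b hb
    rw [List.mem_insertionSort] at hb
    rw [hγ, List.mem_filter] at hb
    have := hb.2
    simp at this
    omega
  · rw [(List.perm_insertionSort _ γ).sum_eq, hsum]
  · intro H
    rw [cnt_filter _ _ (fun a => stp_zero_stepG G12 a)]
    exact cnt_perm _ _ (commG G12) (List.perm_insertionSort _ γ).symm H
  · intro s hs
    rw [cnt_filterS β s hs]
    exact cnt_perm _ _ comm_stepS (List.perm_insertionSort _ γ).symm s

/-- The counts agree for all content vectors. -/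
theorem cnt_eq (β : List ℕ) : cnt (stepG G12) initG β Finset.univ =
    (cvec.map fun p => p.2 * cnt stepS initS β p.1).sum := by
  obtain ⟨l, hl1, hl2, hl3, hl4, hl5⟩ := cnt_reduce β
  rw [hl4]
  have e : (cvec.map fun p => p.2 * cnt stepS initS β p.1) =
      cvec.map fun p => p.2 * cnt stepS initS l p.1 := by
    apply List.map_congr_left
    intro p hp
    rw [hl5 p.1 (cvec_desc p hp).1]
  rw [e]
  by_cases hs : l.sum = 12
  · have hmem : l ∈ partsF 12 12 12 := by
      apply mem_partsF 12 12 12 l hl1 hl2 ?_ hs ?_
      · intro b hb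
        exact (List.le_sum_of_mem hb).trans hs.le
      · have : l.length ≤ l.sum := by
          clear hl1 hl3 hl4 hl5 e hs
          induction l with
          | nil => simp
          | cons a l ih =>
            have h1 := hl2 a List.mem_cons_self
            have h2 := ih (fun b hb => hl2 b (List.mem_cons_of_mem _ hb))
            simp only [List.length_cons, List.sum_cons]
            omega
        omega
    have h1 := check_all l hmem
    rw [← ev_peelAll] at h1
    have h2 := Nm_spec 12 le_rfl 4095 l (by norm_num) (by intro i hi; omega) hl2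
      (by rw [FF_full, hs]; rfl)
    rw [FF_full] at h2
    rw [← h2, ← h1]
    rfl
  · have h1 : cnt (stepG G12) initG l Finset.univ = 0 := by
      by_contra hc
      have := cntG_sum G12 l _ hc
      rw [Finset.card_univ, Fintype.card_fin] at this
      exact hs this
    rw [h1]
    symm
    rw [List.sum_eq_zero_iff]
    intro x hx
    rw [List.mem_map] at hx
    obtain ⟨p, hp, rfl⟩ := hx
    have : cnt stepS initS l p.1 = 0 := by
      by_contra hc
      have h3 := cntS_sum l p.1 hc
      rw [(cvec_desc p hp).2] at h3
      exact hs h3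
    rw [this, mul_zero]

/-- `X_G` is Schur-positive in every number of variables. -/
theorem schur_positive (k : ℕ) : ∃ c : YoungDiagram →₀ ℕ,
    XP G12 k = c.sum fun μ a => a • SP μ k := by
  have h := poly_eq_of_cnt (stepG G12) initG Finset.univ stepS initS cvec cnt_eq k
  rw [XP_eq, h]
  have main : ∀ v : List (List ℕ × ℕ), (∀ p ∈ v, Desc p.1) → ∃ c : YoungDiagram →₀ ℕ,
      (v.map fun p => (p.2 : MvPolynomial ℕ ℤ) * poly stepS initS k p.1).sum =
        c.sum fun μ a => a • SP μ k := by
    intro v
    induction v with
    | nil =>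
      intro _
      exact ⟨0, by simp⟩
    | cons p v ih =>
      intro hv
      obtain ⟨c, hc⟩ := ih (fun q hq => hv q (List.mem_cons_of_mem _ hq))
      have hd := hv p List.mem_cons_self
      refine ⟨Finsupp.single (YD p.1 hd) p.2 + c, ?_⟩
      rw [List.map_cons, List.sum_cons, hc, Finsupp.sum_add_index', Finsupp.sum_single_index,
        SP_YD, nsmul_eq_mul]
      · simp
      · intro μ; simp
      · intro μ a b; rw [add_smul]
  exact main cvec (fun p hp => (cvec_desc p hp).1)

/-- The exponent of a four-variable monomial. -/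
noncomputable def e4 (a b c d : ℕ) : ℕ →₀ ℕ :=
  Finsupp.single 0 a + Finsupp.single 1 b + Finsupp.single 2 c + Finsupp.single 3 d

lemma e4_apply (a b c d i : ℕ) : e4 a b c d i =
    (if 0 = i then a else 0) + (if 1 = i then b else 0) + (if 2 = i then c else 0) +
      (if 3 = i then d else 0) := by
  simp [e4, Finsupp.single_apply]

lemma coeff_XP4 (a b c d : ℕ) : coeff (e4 a b c d) (XP G12 4) =
    (cnt (stepG G12) initG [d, c, b, a] Finset.univ : ℤ) := by
  classical
  rw [XP_eq, coeff_poly, if_pos]
  · congr 1
    simp [expo, e4_apply]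
  · intro i hi
    rw [e4_apply, if_neg (by omega), if_neg (by omega), if_neg (by omega), if_neg (by omega)]

end Pool.Agent.V11165.SNP
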