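import Pool.Agent.V11165.SNP.Shape

/-!
# Schur polynomials satisfy the peeling recursion
-/

set_option autoImplicit false

namespace Pool.Agent.V11165.SNP

open MvPolynomial

lemma inter_iff (l : List ℕ) : ∀ ν, Inter l ν ↔ (ν.length = l.length ∧
    ∀ i < l.length, l.getD (i + 1) 0 ≤ ν.getD i 0 ∧ ν.getD i 0 ≤ l.getD i 0) := by
  induction l with
  | nil =>
    intro ν
    cases ν <;> simp [Inter]
  | cons a l ih =>
    intro ν
    cases ν with
    | nil => simp [Inter]
    | cons x ν =>
      rw [Inter, ih]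
      constructor
      · rintro ⟨h1, h2, h3⟩
        refine ⟨by simp [h2], ?_⟩
        intro i hi
        cases i with
        | zero =>
          have : l.getD 0 0 = l.headD 0 := by cases l <;> simp
          simp only [List.getD_cons_succ, List.getD_cons_zero, this]
          exact h1
        | succ i => simpa using h3 i (by simpa using hi)
      · rintro ⟨h2, h3⟩
        refine ⟨?_, by simpa using h2, ?_⟩
        · have h4 := h3 0 (by simp)
          have : l.getD 0 0 = l.headD 0 := by cases l <;> simp
          simp only [List.getD_cons_succ, List.getD_cons_zero, this] at h4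
          exact h4
        · intro i hi
          have := h3 (i + 1) (by simpa using hi)
          simpa using this

lemma getD_ge (l : List ℕ) {i : ℕ} (h : l.length ≤ i) : l.getD i 0 = 0 := by
  rw [List.getD_eq_default _ _ h]

lemma Desc.getD_le {l : List ℕ} (h : Desc l) : ∀ {i j : ℕ}, i ≤ j → l.getD j 0 ≤ l.getD i 0 := by
  intro i j hij
  rcases Nat.lt_or_ge j l.length with hj | hj
  · rcases Nat.eq_or_lt_of_le hij with rfl | hlt
    · exact le_rfl
    · rw [List.getD_eq_getElem _ _ hj, List.getD_eq_getElem _ _ (hlt.trans hj)]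
      exact List.pairwise_iff_getElem.1 h i j _ hj hlt
  · rw [getD_ge l hj]
    exact Nat.zero_le _

/-- The cells of the shape `l`. -/
def cellsL (l : List ℕ) : Finset (ℕ × ℕ) := YoungDiagram.cellsOfRowLens l

lemma mem_cellsL {l : List ℕ} {i j : ℕ} : (i, j) ∈ cellsL l ↔ j < l.getD i 0 := by
  unfold cellsL
  rw [YoungDiagram.mem_cellsOfRowLens]
  constructor
  · rintro ⟨h, h2⟩
    rwa [List.getD_eq_getElem _ _ h]
  · intro h
    have hi : i < l.length := by
      by_contra hc
      rw [getD_ge l (not_lt.1 hc)] at h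
      omega
    exact ⟨hi, by rwa [List.getD_eq_getElem _ _ hi] at h⟩

lemma card_cellsL (l : List ℕ) : (cellsL l).card = l.sum := by
  unfold cellsL
  induction l with
  | nil => rfl
  | cons a l ih =>
    rw [YoungDiagram.cellsOfRowLens, Finset.card_union_of_disjoint, Finset.card_map, ih]
    · simp
    · rw [Finset.disjoint_left]
      rintro ⟨i, j⟩ h1 h2
      simp only [Finset.mem_product, Finset.mem_singleton, Finset.mem_map] at h1 h2
      obtain ⟨⟨i', j'⟩, _, h3⟩ := h2
      have := congrArg Prod.fst h3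
      simp at this
      omega

/-- The fillings of the shape `l` with entries `< k`. -/
structure IsTab (l : List ℕ) (k : ℕ) (T : ℕ → ℕ → ℕ) : Prop where
  lt : ∀ i j, j < l.getD i 0 → T i j < k
  zero : ∀ i j, ¬ j < l.getD i 0 → T i j = 0
  row : ∀ i j1 j2, j1 < j2 → j2 < l.getD i 0 → T i j1 ≤ T i j2
  col : ∀ i1 i2 j, i1 < i2 → j < l.getD i2 0 → T i1 j < T i2 j

lemma finite_tab (l : List ℕ) (k : ℕ) : {T | IsTab l k T}.Finite := by
  have : Function.Injective (fun (T : {T // IsTab l k T}) (p : cellsL l) =>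
      (⟨T.1 p.1.1 p.1.2, T.2.lt _ _ (mem_cellsL.1 p.2)⟩ : Fin k)) := by
    rintro ⟨T, hT⟩ ⟨T', hT'⟩ h
    apply Subtype.ext
    funext i j
    by_cases hij : j < l.getD i 0
    · have := congrFun h ⟨(i, j), mem_cellsL.2 hij⟩
      simpa using this
    · show T i j = T' i j
      rw [hT.zero i j hij, hT'.zero i j hij]
  have hf : Finite {T // IsTab l k T} := Finite.of_injective _ this
  exact Set.finite_coe_iff.mp hf

/-- The finite set of fillings. -/
noncomputable def TabF (l : List ℕ) (k : ℕ) : Finset (ℕ → ℕ → ℕ) := (finite_tab l k).toFinset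

lemma mem_TabF {l : List ℕ} {k : ℕ} {T : ℕ → ℕ → ℕ} : T ∈ TabF l k ↔ IsTab l k T := by
  simp [TabF]

/-- The weight of a filling. -/
noncomputable def wt (l : List ℕ) (T : ℕ → ℕ → ℕ) : MvPolynomial ℕ ℤ :=
  ∏ p ∈ cellsL l, X (T p.1 p.2)

/-- The row lengths of the part of `T` with entries `< k`. -/
def nuT (l : List ℕ) (k : ℕ) (T : ℕ → ℕ → ℕ) : List ℕ :=
  (List.range l.length).map fun i => ((Finset.range (l.getD i 0)).filter fun j => T i j < k).card

lemma nuT_getD {l : List ℕ} {k : ℕ} {T : ℕ → ℕ → ℕ} (h : IsTab l (k + 1) T) (i j : ℕ) :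
    j < (nuT l k T).getD i 0 ↔ j < l.getD i 0 ∧ T i j < k := by
  rcases Nat.lt_or_ge i l.length with hi | hi
  · have e : (nuT l k T).getD i 0 =
        ((Finset.range (l.getD i 0)).filter fun j => T i j < k).card := by
      rw [List.getD_eq_getElem _ _ (by simpa [nuT] using hi)]
      simp [nuT]
    rw [e]
    -- the set is an initial segment
    have hseg : ∀ j1 j2, j1 ≤ j2 → j2 ∈ (Finset.range (l.getD i 0)).filter (fun j => T i j < k) →
        j1 ∈ (Finset.range (l.getD i 0)).filter (fun j => T i j < k) := by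
      intro j1 j2 h12 h2
      rw [Finset.mem_filter, Finset.mem_range] at h2 ⊢
      refine ⟨by omega, ?_⟩
      rcases Nat.eq_or_lt_of_le h12 with rfl | hlt
      · exact h2.2
      · exact (h.row i j1 j2 hlt h2.1).trans_lt h2.2
    constructor
    · intro hj
      by_contra hc
      have hsub : (Finset.range (l.getD i 0)).filter (fun j => T i j < k) ⊆ Finset.range j := by
        intro j' hj'
        rw [Finset.mem_range]
        by_contra hge
        have := hseg j j' (by omega) hj'
        rw [Finset.mem_filter, Finset.mem_range] at this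
        exact hc this
      have := Finset.card_le_card hsub
      rw [Finset.card_range] at this
      omega
    · rintro ⟨h1, h2⟩
      have hsub : Finset.range (j + 1) ⊆ (Finset.range (l.getD i 0)).filter (fun j => T i j < k) := by
        intro j' hj'
        rw [Finset.mem_range] at hj'
        exact hseg j' j (by omega) (by rw [Finset.mem_filter, Finset.mem_range]; exact ⟨h1, h2⟩)
      have := Finset.card_le_card hsub
      rw [Finset.card_range] at this
      omega
  · rw [getD_ge l hi, getD_ge (nuT l k T) (by simpa [nuT] using hi)]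
    simp

/-- Restriction of a filling. -/
def resT (ν : List ℕ) (T : ℕ → ℕ → ℕ) : ℕ → ℕ → ℕ := fun i j =>
  if j < ν.getD i 0 then T i j else 0

/-- Extension of a filling. -/
def extT (l ν : List ℕ) (k : ℕ) (T : ℕ → ℕ → ℕ) : ℕ → ℕ → ℕ := fun i j =>
  if j < ν.getD i 0 then T i j else if j < l.getD i 0 then k else 0

lemma inter_nuT {l : List ℕ} {k : ℕ} {T : ℕ → ℕ → ℕ} (hd : Desc l) (h : IsTab l (k + 1) T) :
    Inter l (nuT l k T) := by
  rw [inter_iff]
  refine ⟨by simp [nuT], ?_⟩
  intro i _
  constructor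
  · by_contra hc
    rw [not_le] at hc
    have h1 : T i ((nuT l k T).getD i 0) < T (i + 1) ((nuT l k T).getD i 0) :=
      h.col i (i + 1) _ (by omega) hc
    have h2 := h.lt (i + 1) _ hc
    have h4 := hd.getD_le (show i ≤ i + 1 by omega)
    have h3 : (nuT l k T).getD i 0 < (nuT l k T).getD i 0 := by
      rw [nuT_getD h]
      exact ⟨by omega, by omega⟩
    omega
  · by_contra hc
    rw [not_le] at hc
    exact absurd ((nuT_getD h i (l.getD i 0)).1 hc).1 (lt_irrefl _)

lemma Inter.getD_le {l ν : List ℕ} (h : Inter l ν) (i : ℕ) : ν.getD i 0 ≤ l.getD i 0 := by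
  rw [inter_iff] at h
  rcases Nat.lt_or_ge i l.length with hi | hi
  · exact (h.2 i hi).2
  · rw [getD_ge ν (by omega)]
    exact Nat.zero_le _

lemma Inter.getD_ge {l ν : List ℕ} (h : Inter l ν) (i : ℕ) : l.getD (i + 1) 0 ≤ ν.getD i 0 := by
  rw [inter_iff] at h
  rcases Nat.lt_or_ge i l.length with hi | hi
  · exact (h.2 i hi).1
  · rw [SNP.getD_ge l (show l.length ≤ i + 1 by omega)]
    exact Nat.zero_le _

lemma isTab_resT {l : List ℕ} {k : ℕ} {T : ℕ → ℕ → ℕ} (hd : Desc l)
    (h : IsTab l (k + 1) T) :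
    IsTab (nuT l k T) k (resT (nuT l k T) T) := by
  have key := nuT_getD h
  refine ⟨?_, ?_, ?_, ?_⟩
  · intro i j hj
    rw [resT, if_pos hj]
    exact ((key i j).1 hj).2
  · intro i j hj
    rw [resT, if_neg hj]
  · intro i j1 j2 h12 hj
    rw [resT, resT, if_pos hj, if_pos (h12.trans hj)]
    exact h.row i j1 j2 h12 ((key i j2).1 hj).1
  · intro i1 i2 j h12 hj
    have h1 := (key i2 j).1 hj
    have h2 := h.col i1 i2 j h12 h1.1
    have h3 : j < (nuT l k T).getD i1 0 := by
      rw [key]
      have := hd.getD_le (show i1 ≤ i2 by omega)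
      exact ⟨by omega, by omega⟩
    rw [resT, resT, if_pos hj, if_pos h3]
    exact h2

lemma isTab_extT {l ν : List ℕ} {k : ℕ} {T : ℕ → ℕ → ℕ} (hν : Inter l ν)
    (h : IsTab ν k T) (hd : Desc l) : IsTab l (k + 1) (extT l ν k T) := by
  refine ⟨?_, ?_, ?_, ?_⟩
  · intro i j hj
    rw [extT]
    split_ifs with h1
    · exact (h.lt i j h1).trans (Nat.lt_succ_self k)
    · exact Nat.lt_succ_self k
  · intro i j hj
    have := hν.getD_le i
    rw [extT, if_neg (by omega), if_neg hj]
  · intro i j1 j2 h12 hj
    rw [extT, extT]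
    by_cases h2 : j2 < ν.getD i 0
    · rw [if_pos h2, if_pos (h12.trans h2)]
      exact h.row i j1 j2 h12 h2
    · rw [if_neg h2, if_pos hj]
      split_ifs with h1 h3
      · exact (h.lt i j1 h1).le
      · exact le_rfl
      · exact Nat.zero_le _
  · intro i1 i2 j h12 hj
    have h0 : l.getD i2 0 ≤ ν.getD i1 0 := by
      have h1 := hν.getD_ge i1
      have h2 := hd.getD_le (show i1 + 1 ≤ i2 by omega)
      omega
    rw [extT, extT, if_pos (by omega)]
    by_cases h2 : j < ν.getD i2 0
    · rw [if_pos h2]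
      exact h.col i1 i2 j h12 h2
    · rw [if_neg h2, if_pos hj]
      exact h.lt i1 j (by omega)

lemma cellsL_subset {l ν : List ℕ} (hν : Inter l ν) : cellsL ν ⊆ cellsL l := by
  rintro ⟨i, j⟩ h
  rw [mem_cellsL] at h ⊢
  exact h.trans_le (hν.getD_le i)

lemma wt_eq {l ν : List ℕ} {k : ℕ} {T T' : ℕ → ℕ → ℕ} (hν : Inter l ν)
    (h1 : ∀ i j, j < ν.getD i 0 → T i j = T' i j)
    (h2 : ∀ i j, ¬ j < ν.getD i 0 → j < l.getD i 0 → T i j = k) :
    wt l T = X k ^ (l.sum - ν.sum) * wt ν T' := by
  unfold wt
  rw [← Finset.prod_sdiff (cellsL_subset hν)]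
  congr 1
  · rw [← card_cellsL l, ← card_cellsL ν, ← Finset.card_sdiff_of_subset (cellsL_subset hν),
      ← Finset.prod_const]
    apply Finset.prod_congr rfl
    rintro ⟨i, j⟩ hp
    rw [Finset.mem_sdiff, mem_cellsL, mem_cellsL] at hp
    rw [h2 i j hp.2 hp.1]
  · apply Finset.prod_congr rfl
    rintro ⟨i, j⟩ hp
    rw [mem_cellsL] at hp
    rw [h1 i j hp]

/-- The peeling recursion for the sum over fillings. -/
lemma sum_TabF_succ {l : List ℕ} (hd : Desc l) (k : ℕ) :
    ∑ T ∈ TabF l (k + 1), wt l T =
      ∑ ν ∈ (interl l).toFinset, X k ^ (l.sum - ν.sum) * ∑ T ∈ TabF ν k, wt ν T := by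
  simp only [Finset.mul_sum]
  rw [Finset.sum_sigma']
  refine Finset.sum_bij' (fun T _ => ⟨nuT l k T, resT (nuT l k T) T⟩)
    (fun p _ => extT l p.1 k p.2) ?_ ?_ ?_ ?_ ?_
  · intro T hT
    rw [mem_TabF] at hT
    rw [Finset.mem_sigma, List.mem_toFinset, mem_interl, mem_TabF]
    exact ⟨inter_nuT hd hT, isTab_resT hd hT⟩
  · rintro ⟨ν, T⟩ hp
    rw [Finset.mem_sigma, List.mem_toFinset, mem_interl, mem_TabF] at hp
    rw [mem_TabF]
    exact isTab_extT hp.1 hp.2 hd
  · intro T hT
    rw [mem_TabF] at hT
    funext i j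
    simp only [extT, resT]
    split_ifs with h1 h2
    · rfl
    · rw [nuT_getD hT] at h1
      have := hT.lt i j h2
      have : ¬ T i j < k := fun h => h1 ⟨h2, h⟩
      omega
    · exact (hT.zero i j h2).symm
  · rintro ⟨ν, T⟩ hp
    rw [Finset.mem_sigma, List.mem_toFinset, mem_interl, mem_TabF] at hp
    obtain ⟨hν, hT⟩ := hp
    simp only at hν hT
    have hE := isTab_extT hν hT hd
    have hnu : nuT l k (extT l ν k T) = ν := by
      apply List.ext_getElem
      · rw [hν.length]; simp [nuT]
      · intro i h1 h2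
        have h3 : ∀ j, j < (nuT l k (extT l ν k T)).getD i 0 ↔ j < ν.getD i 0 := by
          intro j
          rw [nuT_getD hE]
          have := hν.getD_le i
          simp only [extT]
          split_ifs with h4 h5
          · have := hT.lt i j h4
            constructor
            · intro _; exact h4
            · intro _; exact ⟨by omega, this⟩
          · constructor
            · intro h; omega
            · intro h; omega
          · constructor
            · intro h; omega
            · intro h; omega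
        have h4 := h3 (ν.getD i 0)
        have h5 := h3 ((nuT l k (extT l ν k T)).getD i 0)
        rw [← List.getD_eq_getElem _ 0 h1, ← List.getD_eq_getElem _ 0 h2]
        omega
    simp only [hnu]
    congr 1
    funext i j
    simp only [resT, extT]
    split_ifs with h1
    · rfl
    · exact (hT.zero i j h1).symm
  · intro T hT
    rw [mem_TabF] at hT
    apply wt_eq (inter_nuT hd hT)
    · intro i j h
      simp only [resT, if_pos h]
    · intro i j h1 h2
      rw [nuT_getD hT] at h1
      have := hT.lt i j h2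
      have : ¬ T i j < k := fun h => h1 ⟨h2, h⟩
      omega

/-- The sum over fillings is the recursive polynomial. -/
theorem sum_TabF (k : ℕ) : ∀ {l : List ℕ}, Desc l →
    ∑ T ∈ TabF l k, wt l T = poly stepS initS k l := by
  induction k with
  | zero =>
    intro l _
    rw [poly, initS]
    by_cases h : l.sum = 0
    · rw [if_pos h]
      have hc : cellsL l = ∅ := by
        rw [← Finset.card_eq_zero, card_cellsL, h]
      have hl : ∀ i j, ¬ j < l.getD i 0 := by
        intro i j hj
        have := mem_cellsL.2 hj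
        rw [hc] at this
        simp at this
      have : TabF l 0 = {fun _ _ => 0} := by
        ext T
        rw [mem_TabF, Finset.mem_singleton]
        constructor
        · intro hT
          funext i j
          exact hT.zero i j (hl i j)
        · rintro rfl
          exact ⟨fun i j h => absurd h (hl i j), fun _ _ _ => rfl,
            fun i j1 j2 _ h => absurd h (hl i j2), fun i1 i2 j _ h => absurd h (hl i2 j)⟩
      rw [this, Finset.sum_singleton, wt, hc]
      simp
    · rw [if_neg h]
      have : TabF l 0 = ∅ := by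
        rw [Finset.eq_empty_iff_forall_notMem]
        intro T hT
        rw [mem_TabF] at hT
        apply h
        rw [← card_cellsL, Finset.card_eq_zero, Finset.eq_empty_iff_forall_notMem]
        rintro ⟨i, j⟩ hij
        have := hT.lt i j (mem_cellsL.1 hij)
        omega
      rw [this]
      simp
  | succ k ih =>
    intro l hd
    rw [sum_TabF_succ hd, poly, stepS, Multiset.map_coe, Multiset.sum_coe, List.map_map,
      ← List.sum_toFinset _ (nodup_interl l)]
    apply Finset.sum_congr rfl
    intro ν hν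
    rw [List.mem_toFinset, mem_interl] at hν
    rw [ih (hν.desc hd)]
    rfl

/-- The Schur polynomial of `μ` in the variables `X 0, …, X (k-1)`. -/
noncomputable def SP (μ : YoungDiagram) (k : ℕ) : MvPolynomial ℕ ℤ :=
  ∑ᶠ T : {T : SemistandardYoungTableau μ // ∀ p ∈ μ.cells, T p.1 p.2 < k},
    ∏ p ∈ μ.cells, (X (T.1 p.1 p.2) : MvPolynomial ℕ ℤ)

/-- The Young diagram with the given row lengths. -/
def YD (l : List ℕ) (h : Desc l) : YoungDiagram where
  cells := cellsL l
  isLowerSet := by
    rintro ⟨i2, j2⟩ ⟨i1, j1⟩ ⟨hi, hj⟩ hcell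
    rw [Finset.mem_coe, mem_cellsL] at hcell ⊢
    have h1 : l.getD i2 0 ≤ l.getD i1 0 := h.getD_le hi
    have h2 : j1 ≤ j2 := hj
    omega

lemma mem_YD {l : List ℕ} {h : Desc l} {i j : ℕ} : (i, j) ∈ YD l h ↔ j < l.getD i 0 := by
  rw [← YoungDiagram.mem_cells]
  exact mem_cellsL

theorem SP_YD (l : List ℕ) (h : Desc l) (k : ℕ) : SP (YD l h) k = poly stepS initS k l := by
  rw [← sum_TabF k h]
  unfold SP
  have hin : ∀ T : {T : SemistandardYoungTableau (YD l h) // ∀ p ∈ (YD l h).cells, T p.1 p.2 < k},
      IsTab l k (T.1 : ℕ → ℕ → ℕ) := by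
    rintro ⟨T, hT⟩
    refine ⟨?_, ?_, ?_, ?_⟩
    · intro i j hj
      exact hT (i, j) (mem_cellsL.2 hj)
    · intro i j hj
      exact T.zeros (fun hc => hj (mem_YD.1 hc))
    · intro i j1 j2 h12 hj
      exact T.row_weak h12 (mem_YD.2 hj)
    · intro i1 i2 j h12 hj
      exact T.col_strict h12 (mem_YD.2 hj)
  let e : {T : SemistandardYoungTableau (YD l h) // ∀ p ∈ (YD l h).cells, T p.1 p.2 < k} ≃
      {T // T ∈ TabF l k} :=
    { toFun := fun T => ⟨(T.1 : ℕ → ℕ → ℕ), mem_TabF.2 (hin T)⟩
      invFun := fun T =>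
        have hT := mem_TabF.1 T.2
        ⟨{ entry := T.1
           row_weak' := fun {i j1 j2} h12 hj => hT.row i j1 j2 h12 (mem_YD.1 hj)
           col_strict' := fun {i1 i2 j} h12 hj => hT.col i1 i2 j h12 (mem_YD.1 hj)
           zeros' := fun {i j} hj => hT.zero i j (fun hc => hj (mem_YD.2 hc)) },
         fun p hp => hT.lt p.1 p.2 (mem_cellsL.1 hp)⟩
      left_inv := by
        rintro ⟨T, hT⟩
        rfl
      right_inv := by
        rintro ⟨T, hT⟩
        rfl }
  rw [← finsum_comp_equiv e.symm, finsum_eq_sum_of_fintype, ← Finset.sum_coe_sort (TabF l k)]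
  rfl

end Pool.Agent.V11165.SNP
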