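import Pool.Agent.V11165.SNP.GraphP
import Pool.Agent.V11165.SNP.Tab

/-!
# The counterexample graph: data and computations
-/

set_option autoImplicit false

namespace Pool.Agent.V11165.SNP

/-- The neighbourhoods of the graph as bit masks. -/
def gml : List ℕ := [3002, 1781, 2746, 1717, 3407, 2383, 50, 15, 49, 15, 26, 53]

/-- The nonempty stable sets (bit masks), by smallest element and size. -/
def tabL : List (List (List ℕ)) :=
  [[[], [1], [5, 65, 1025], [69, 1029, 1089], [1093], [], []],
   [[], [2], [10, 258, 2050], [266, 2058, 2306], [2314], [], []],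
   [[], [4], [68, 260, 1028], [324, 1092, 1284], [1348], [], []],
   [[], [8], [72, 264, 2056], [328, 2120, 2312], [2376], [], []],
   [[], [16], [48, 144, 528], [176, 560, 656], [688], [], []],
   [[], [32], [160, 544, 1056], [672, 1184, 1568], [1696], [], []],
   [[], [64], [192, 320, 576, 1088, 2112], [448, 704, 832, 1216, 1344, 1600, 2240, 2368, 2624, 3136], [960, 1472, 1728, 1856, 2496, 2752, 2880, 3264, 3392, 3648], [1984, 3008, 3520, 3776, 3904], [4032]],
   [[], [128], [384, 640, 1152, 2176], [896, 1408, 1664, 2432, 2688, 3200], [1920, 2944, 3456, 3712], [3968], []],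
   [[], [256], [768, 1280, 2304], [1792, 2816, 3328], [3840], [], []],
   [[], [512], [1536, 2560], [3584], [], [], []],
   [[], [1024], [3072], [], [], [], []],
   [[], [2048], [], [], [], [], []]]

/-- The Schur expansion of the chromatic symmetric function. -/
def cvec : List (List ℕ × ℕ) :=
  [([6, 2, 2, 2, 0, 0, 0, 0, 0, 0, 0, 0], 6),
   ([6, 2, 2, 1, 1, 0, 0, 0, 0, 0, 0, 0], 6),
   ([6, 2, 1, 1, 1, 1, 0, 0, 0, 0, 0, 0], 42),
   ([6, 1, 1, 1, 1, 1, 1, 0, 0, 0, 0, 0], 426),
   ([5, 3, 2, 2, 0, 0, 0, 0, 0, 0, 0, 0], 6),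
   ([5, 3, 2, 1, 1, 0, 0, 0, 0, 0, 0, 0], 6),
   ([5, 3, 1, 1, 1, 1, 0, 0, 0, 0, 0, 0], 42),
   ([5, 2, 2, 2, 1, 0, 0, 0, 0, 0, 0, 0], 54),
   ([5, 2, 2, 1, 1, 1, 0, 0, 0, 0, 0, 0], 180),
   ([5, 2, 1, 1, 1, 1, 1, 0, 0, 0, 0, 0], 1530),
   ([5, 1, 1, 1, 1, 1, 1, 1, 0, 0, 0, 0], 11778),
   ([4, 4, 4, 0, 0, 0, 0, 0, 0, 0, 0, 0], 6),
   ([4, 4, 3, 1, 0, 0, 0, 0, 0, 0, 0, 0], 24),
   ([4, 4, 2, 2, 0, 0, 0, 0, 0, 0, 0, 0], 6),
   ([4, 4, 2, 1, 1, 0, 0, 0, 0, 0, 0, 0], 52),
   ([4, 4, 1, 1, 1, 1, 0, 0, 0, 0, 0, 0], 90),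
   ([4, 3, 3, 2, 0, 0, 0, 0, 0, 0, 0, 0], 12),
   ([4, 3, 3, 1, 1, 0, 0, 0, 0, 0, 0, 0], 154),
   ([4, 3, 2, 2, 1, 0, 0, 0, 0, 0, 0, 0], 114),
   ([4, 3, 2, 1, 1, 1, 0, 0, 0, 0, 0, 0], 798),
   ([4, 3, 1, 1, 1, 1, 1, 0, 0, 0, 0, 0], 2100),
   ([4, 2, 2, 2, 2, 0, 0, 0, 0, 0, 0, 0], 112),
   ([4, 2, 2, 2, 1, 1, 0, 0, 0, 0, 0, 0], 780),
   ([4, 2, 2, 1, 1, 1, 1, 0, 0, 0, 0, 0], 5656),
   ([4, 2, 1, 1, 1, 1, 1, 1, 0, 0, 0, 0], 31068),
   ([4, 1, 1, 1, 1, 1, 1, 1, 1, 0, 0, 0], 148746),
   ([3, 3, 3, 3, 0, 0, 0, 0, 0, 0, 0, 0], 42),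
   ([3, 3, 3, 2, 1, 0, 0, 0, 0, 0, 0, 0], 48),
   ([3, 3, 3, 1, 1, 1, 0, 0, 0, 0, 0, 0], 1074),
   ([3, 3, 2, 2, 1, 1, 0, 0, 0, 0, 0, 0], 1130),
   ([3, 3, 2, 1, 1, 1, 1, 0, 0, 0, 0, 0], 8214),
   ([3, 3, 1, 1, 1, 1, 1, 1, 0, 0, 0, 0], 22356),
   ([3, 2, 2, 2, 2, 1, 0, 0, 0, 0, 0, 0], 396),
   ([3, 2, 2, 2, 1, 1, 1, 0, 0, 0, 0, 0], 8838),
   ([3, 2, 2, 1, 1, 1, 1, 1, 0, 0, 0, 0], 62386),
   ([3, 2, 1, 1, 1, 1, 1, 1, 1, 0, 0, 0], 285252),
   ([3, 1, 1, 1, 1, 1, 1, 1, 1, 1, 0, 0], 1000608),
   ([2, 2, 2, 2, 2, 2, 0, 0, 0, 0, 0, 0], 1884),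
   ([2, 2, 2, 2, 2, 1, 1, 0, 0, 0, 0, 0], 2964),
   ([2, 2, 2, 2, 1, 1, 1, 1, 0, 0, 0, 0], 36822),
   ([2, 2, 2, 1, 1, 1, 1, 1, 1, 0, 0, 0], 222666),
   ([2, 2, 1, 1, 1, 1, 1, 1, 1, 1, 0, 0], 997578),
   ([2, 1, 1, 1, 1, 1, 1, 1, 1, 1, 1, 0], 3387960),
   ([1, 1, 1, 1, 1, 1, 1, 1, 1, 1, 1, 1], 4495722)]

/-- Lookup in the table of stable sets. -/
def tab (v j : ℕ) : List ℕ := (tabL.getD v []).getD j []

/-- The neighbourhood mask of `v`. -/
def gm (v : ℕ) : ℕ := gml.getD v 0

/-- The counterexample graph on 12 vertices. -/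
def G12 : SimpleGraph (Fin 12) where
  Adj u v := (gm u.1).testBit v.1 = true
  symm := ⟨by
    have h : ∀ u v : Fin 12, (gm u.1).testBit v.1 = true → (gm v.1).testBit u.1 = true := by
      decide +kernel
    exact fun u v => h u v⟩
  loopless := ⟨by
    have h : ∀ u : Fin 12, ¬ (gm u.1).testBit u.1 = true := by decide +kernel
    exact h⟩

/-- The set of vertices of a mask. -/
def FF (s : ℕ) : Finset (Fin 12) := Finset.univ.filter fun i => s.testBit i.1 = true

lemma mem_FF {s : ℕ} {i : Fin 12} : i ∈ FF s ↔ s.testBit i.1 = true := by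
  simp [FF]

lemma FF_inj {s t : ℕ} (hs : s < 4096) (ht : t < 4096) (h : FF s = FF t) : s = t := by
  apply Nat.eq_of_testBit_eq
  intro i
  by_cases hi : i < 12
  · have := congrArg (fun S => (⟨i, hi⟩ : Fin 12) ∈ S) h
    simp only [mem_FF, eq_iff_iff] at this
    exact Bool.eq_iff_iff.2 this
  · have h1 : (4096 : ℕ) ≤ 2 ^ i := by
      calc (4096 : ℕ) = 2 ^ 12 := by norm_num
        _ ≤ 2 ^ i := Nat.pow_le_pow_right (by norm_num) (by omega)
    rw [Nat.testBit_lt_two_pow (hs.trans_le h1), Nat.testBit_lt_two_pow (ht.trans_le h1)]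

lemma FF_surj (S : Finset (Fin 12)) : ∃ s < 4096, FF s = S := by
  have hbij : Function.Bijective (fun s : Fin 4096 => FF s.1) := by
    rw [Fintype.bijective_iff_injective_and_card]
    refine ⟨fun s t h => Fin.ext (FF_inj s.2 t.2 h), ?_⟩
    simp
  obtain ⟨s, hs⟩ := hbij.2 S
  exact ⟨s.1, s.2, hs⟩

lemma FF_sub {s h : ℕ} (hs : s < 4096) : FF s ⊆ FF h ↔ s &&& h = s := by
  constructor
  · intro hsub
    apply Nat.eq_of_testBit_eq
    intro i
    rw [Nat.testBit_land]
    by_cases hi : i < 12
    · have := @hsub ⟨i, hi⟩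
      simp only [mem_FF] at this
      cases h1 : s.testBit i
      · simp
      · rw [this h1]; simp
    · have h1 : (4096 : ℕ) ≤ 2 ^ i := by
        calc (4096 : ℕ) = 2 ^ 12 := by norm_num
          _ ≤ 2 ^ i := Nat.pow_le_pow_right (by norm_num) (by omega)
      rw [Nat.testBit_lt_two_pow (hs.trans_le h1)]
      simp
  · intro he i hi
    rw [mem_FF] at hi ⊢
    rw [← he, Nat.testBit_land] at hi
    simp only [Bool.and_eq_true] at hi
    exact hi.2

lemma FF_xor {s h : ℕ} (hsub : FF s ⊆ FF h) : FF (h ^^^ s) = FF h \ FF s := by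
  ext i
  have := @hsub i
  rw [Finset.mem_sdiff, mem_FF, mem_FF, mem_FF, Nat.testBit_xor]
  rw [mem_FF, mem_FF] at this
  cases h1 : s.testBit i.1 <;> cases h2 : h.testBit i.1 <;> simp_all

/-- The number of vertices of a mask. -/
def pc (s : ℕ) : ℕ := ((List.range 12).filter fun i => s.testBit i).length

lemma card_FF (s : ℕ) : (FF s).card = pc s := by
  unfold FF pc
  rw [← List.toFinset_card_of_nodup (List.nodup_range.filter _)]
  refine Finset.card_bij (fun i _ => i.1) ?_ ?_ ?_
  · intro i hi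
    simp only [Finset.mem_filter, Finset.mem_univ, true_and] at hi
    simp [hi]
  · intro i _ j _ hij
    exact Fin.ext hij
  · intro j hj
    simp only [List.toFinset_filter, List.toFinset_range, Finset.mem_filter,
      Finset.mem_range] at hj
    exact ⟨⟨j, hj.1⟩, by simpa using hj.2, rfl⟩

/-- Stability on masks. -/
def stb (s : ℕ) : Bool := (List.range 12).all fun i => !s.testBit i || (s &&& gm i == 0)

lemma stb_iff {s : ℕ} (hs : s < 4096) : stb s = true ↔ Stable G12 (FF s) := by
  unfold stb Stable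
  rw [List.all_eq_true]
  constructor
  · intro h u hu v hv huv
    have h1 := h u.1 (by simp)
    rw [mem_FF] at hu hv
    rw [hu] at h1
    simp only [Bool.not_true, Bool.false_or, beq_iff_eq] at h1
    have h2 : (s &&& gm u.1).testBit v.1 = true := by
      rw [Nat.testBit_land, hv]
      have h3 : (gm u.1).testBit v.1 = true := huv
      rw [h3]
      rfl
    rw [h1] at h2
    simp at h2
  · intro h i hi
    rw [List.mem_range] at hi
    cases h1 : s.testBit i
    · simp
    · simp only [Bool.not_true, Bool.false_or, beq_iff_eq]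
      apply Nat.eq_of_testBit_eq
      intro j
      rw [Nat.testBit_land, Nat.zero_testBit]
      by_cases hj : j < 12
      · cases h2 : s.testBit j
        · simp
        · have := h ⟨i, hi⟩ (mem_FF.2 h1) ⟨j, hj⟩ (mem_FF.2 h2)
          have h3 : ¬ (gm i).testBit j = true := this
          simpa using h3
      · have h1 : (4096 : ℕ) ≤ 2 ^ j := by
          calc (4096 : ℕ) = 2 ^ 12 := by norm_num
            _ ≤ 2 ^ j := Nat.pow_le_pow_right (by norm_num) (by omega)
        rw [Nat.testBit_lt_two_pow (hs.trans_le h1)]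
        simp

lemma tab_ok : ∀ v : Fin 12, ∀ j : Fin 8, ∀ s ∈ tab v.1 j.1,
    s < 4096 ∧ stb s = true ∧ pc s = j.1 ∧ s.testBit v.1 = true := by
  decide +kernel

lemma tab_big : ∀ v : Fin 12, (tabL.getD v.1 []).length ≤ 7 := by decide +kernel

lemma tab_nodup : ∀ v : Fin 12, ∀ j : Fin 8, (tab v.1 j.1).Nodup := by decide +kernel

lemma tab_complete_aux : ((List.range 4096).all fun s => !stb s ||
    (List.range 12).all fun v => !s.testBit v || (List.range v).any (fun u => s.testBit u) ||
      (tab v (pc s)).contains s) = true := by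
  decide +kernel

lemma tab_complete {s : ℕ} (hs : s < 4096) (hst : stb s = true) {v : ℕ} (hv : v < 12)
    (hsv : s.testBit v = true) (hmin : ∀ u < v, s.testBit u = false) : s ∈ tab v (pc s) := by
  have h := tab_complete_aux
  rw [List.all_eq_true] at h
  have h1 := h s (List.mem_range.2 hs)
  rw [hst, Bool.not_true, Bool.false_or, List.all_eq_true] at h1
  have h2 := h1 v (List.mem_range.2 hv)
  rw [hsv, Bool.not_true, Bool.false_or, Bool.or_eq_true, List.any_eq_true] at h2
  rcases h2 with ⟨u, hu, h3⟩ | h2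
  · rw [hmin u (List.mem_range.1 hu)] at h3
    exact absurd h3 (by simp)
  · exact List.contains_iff_mem.1 h2

lemma tab_ge {v j : ℕ} (hj : 8 ≤ j) (hv : v < 12) : tab v j = [] := by
  unfold tab
  rw [List.getD_eq_default]
  have := tab_big ⟨v, hv⟩
  simp only at this
  omega

lemma tab_spec {v j s : ℕ} (hv : v < 12) (hs : s ∈ tab v j) :
    s < 4096 ∧ stb s = true ∧ pc s = j ∧ s.testBit v = true := by
  by_cases hj : j < 8
  · exact tab_ok ⟨v, hv⟩ ⟨j, hj⟩ s hs
  · rw [tab_ge (not_lt.1 hj) hv] at hs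
    simp at hs

lemma tab_nd {v j : ℕ} (hv : v < 12) : (tab v j).Nodup := by
  by_cases hj : j < 8
  · exact tab_nodup ⟨v, hv⟩ ⟨j, hj⟩
  · rw [tab_ge (not_lt.1 hj) hv]
    exact List.nodup_nil

/-- Counting colourings with prescribed class sizes. -/
def Nm : ℕ → ℕ → List ℕ → ℕ
  | 0, _, β => if β.isEmpty then 1 else 0
  | r + 1, h, β =>
    if β.all (fun b => b == 1) then β.length.factorial
    else if h.testBit (11 - r) then
      (β.dedup.map fun j => β.count j * (((tab (11 - r) j).map fun s =>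
        if s &&& h = s then Nm r (h ^^^ s) (β.erase j) else 0)).sum).sum
    else Nm r h β

lemma TT_mask {v h j : ℕ} (hv : v < 12) (_hh : h < 4096)
    (hmin : ∀ u < v, h.testBit u = false) (F : Finset (Fin 12) → ℕ) :
    TT G12 ⟨v, hv⟩ (FF h) j F =
      ((tab v j).map fun s => if s &&& h = s then F (FF (h ^^^ s)) else 0).sum := by
  classical
  rw [← List.sum_toFinset _ (tab_nd hv), ← Finset.sum_filter]
  unfold TT
  symm
  refine Finset.sum_bij (fun s _ => FF s) ?_ ?_ ?_ ?_
  · intro s hs
    rw [Finset.mem_filter, List.mem_toFinset] at hs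
    obtain ⟨h1, h2, h3, h4⟩ := tab_spec hv hs.1
    rw [Finset.mem_filter, Finset.mem_powerset]
    exact ⟨(FF_sub h1).2 hs.2, ⟨(stb_iff h1).1 h2, by rw [card_FF, h3]⟩, mem_FF.2 h4⟩
  · intro s hs t ht hst
    rw [Finset.mem_filter, List.mem_toFinset] at hs ht
    exact FF_inj (tab_spec hv hs.1).1 (tab_spec hv ht.1).1 hst
  · intro S hS
    rw [Finset.mem_filter, Finset.mem_powerset] at hS
    obtain ⟨s, hs, rfl⟩ := FF_surj S
    obtain ⟨h1, ⟨h2, h3⟩, h4⟩ := hS
    refine ⟨s, ?_, rfl⟩
    rw [Finset.mem_filter, List.mem_toFinset]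
    refine ⟨?_, (FF_sub hs).1 h1⟩
    rw [← h3, card_FF]
    apply tab_complete hs ((stb_iff hs).2 h2) hv (mem_FF.1 h4)
    intro u hu
    by_contra hc
    rw [Bool.not_eq_false] at hc
    have := @h1 ⟨u, hu.trans hv⟩ (mem_FF.2 hc)
    rw [mem_FF] at this
    simp only at this
    rw [hmin u hu] at this
    simp at this
  · intro s hs
    rw [Finset.mem_filter, List.mem_toFinset] at hs
    rw [FF_xor ((FF_sub (tab_spec hv hs.1).1).2 hs.2)]

lemma sum_dedup (β : List ℕ) (f : ℕ → ℕ) :
    (β.map f).sum = (β.dedup.map fun j => β.count j * f j).sum := by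
  rw [Finset.sum_list_map_count]
  rfl

lemma cnt_ones {V : Type} [Fintype V] [DecidableEq V] (G : SimpleGraph V) (n : ℕ) :
    ∀ H : Finset V, H.card = n → cnt (stepG G) initG (List.replicate n 1) H = n.factorial := by
  classical
  induction n with
  | zero =>
    intro H hH
    rw [Finset.card_eq_zero] at hH
    subst hH
    simp [cnt, initG]
  | succ n ih =>
    intro H hH
    rw [List.replicate_succ, cnt_cons, stpG_sum]
    have e : ∀ S ∈ H.powerset.filter (fun S => Stable G S ∧ S.card = 1),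
        cnt (stepG G) initG (List.replicate n 1) (H \ S) = n.factorial := by
      intro S hS
      rw [Finset.mem_filter, Finset.mem_powerset] at hS
      apply ih
      have := Finset.card_sdiff_add_card_eq_card hS.1
      omega
    rw [Finset.sum_congr rfl e, Finset.sum_const, smul_eq_mul, Nat.factorial_succ]
    congr 1
    have : H.powerset.filter (fun S => Stable G S ∧ S.card = 1) = H.powersetCard 1 := by
      ext S
      rw [Finset.mem_filter, Finset.mem_powerset, Finset.mem_powersetCard]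
      constructor
      · rintro ⟨h1, _, h3⟩
        exact ⟨h1, h3⟩
      · rintro ⟨h1, h3⟩
        refine ⟨h1, ?_, h3⟩
        obtain ⟨v, rfl⟩ := Finset.card_eq_one.1 h3
        intro a ha b hb
        rw [Finset.mem_singleton] at ha hb
        rw [ha, hb]
        exact G.loopless.irrefl v
    rw [this, Finset.card_powersetCard, hH, Nat.choose_one_right]

theorem Nm_spec (r : ℕ) : r ≤ 12 → ∀ (h : ℕ) (β : List ℕ), h < 4096 →
    (∀ i < 12 - r, h.testBit i = false) → (∀ b ∈ β, 0 < b) → β.sum = (FF h).card →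
    Nm r h β = cnt (stepG G12) initG β (FF h) := by
  induction r with
  | zero =>
    intro _ h β hh hz hpos hsum
    have hF : FF h = ∅ := by
      ext i
      rw [mem_FF, hz i.1 (by omega)]
      simp
    rw [hF, Finset.card_empty] at hsum
    have hβ : β = [] := by
      cases β with
      | nil => rfl
      | cons b β =>
        have := hpos b (List.mem_cons_self)
        rw [List.sum_cons] at hsum
        omega
    subst hβ
    rw [hF]
    simp [Nm, cnt, initG]
  | succ r ih =>
    intro hr h β hh hz hpos hsum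
    rw [Nm]
    split_ifs with h1 h2
    · have hrep : β = List.replicate β.length 1 := by
        rw [List.eq_replicate_iff]
        refine ⟨rfl, fun b hb => ?_⟩
        have := List.all_eq_true.1 h1 b hb
        simpa using this
      have hcard : (FF h).card = β.length := by
        rw [← hsum]
        conv_lhs => rw [hrep]
        simp
      rw [← cnt_ones G12 β.length (FF h) hcard, ← hrep]
    · have hv : 11 - r < 12 := by omega
      have hmin : ∀ u < 11 - r, h.testBit u = false := fun u hu => hz u (by omega)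
      have hvm : (⟨11 - r, hv⟩ : Fin 12) ∈ FF h := mem_FF.2 h2
      rw [vertex_rec G12 β (FF h) ⟨11 - r, hv⟩ hvm]
      conv_rhs => rw [sum_dedup]
      congr 1
      apply List.map_congr_left
      intro j hj
      rw [List.mem_dedup] at hj
      rw [TT_mask hv hh hmin]
      congr 2
      apply List.map_congr_left
      intro s hs
      split_ifs with h3
      · obtain ⟨h4, h5, h6, h7⟩ := tab_spec hv hs
        have hsub := (FF_sub h4).2 h3
        apply ih (by omega)
        · exact Nat.xor_lt_two_pow (n := 12) hh h4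
        · intro i hi
          rw [Nat.testBit_xor]
          rcases Nat.lt_or_ge i (11 - r) with h8 | h8
          · have h9 : s.testBit i = false := by
              by_contra hc
              rw [Bool.not_eq_false] at hc
              have := @hsub ⟨i, by omega⟩ (mem_FF.2 hc)
              rw [mem_FF] at this
              simp only at this
              rw [hmin i h8] at this
              simp at this
            rw [hmin i h8, h9]
            rfl
          · have h9 : i = 11 - r := by omega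
            rw [h9, h2, h7]
            rfl
        · intro b hb
          exact hpos b (List.mem_of_mem_erase hb)
        · rw [FF_xor hsub]
          have e1 := Finset.card_sdiff_add_card_eq_card hsub
          rw [card_FF s, h6] at e1
          have e2 : (β.erase j).sum + j = β.sum := by
            rw [(List.perm_cons_erase hj).sum_eq, List.sum_cons]
            omega
          omega
      · rfl
    · apply ih (by omega) h β hh ?_ hpos hsum
      intro i hi
      rcases Nat.lt_or_ge i (11 - r) with h8 | h8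
      · exact hz i (by omega)
      · have h9 : i = 11 - r := by omega
        rw [h9]
        simpa using h2

/-- All weakly decreasing lists of positive numbers `≤ m` with sum `n` and length at most the
fuel. -/
def partsF : ℕ → ℕ → ℕ → List (List ℕ)
  | 0, n, _ => if n = 0 then [[]] else []
  | f + 1, n, m => if n = 0 then [[]] else
      (List.range (min n m)).flatMap fun j => (partsF f (n - (j + 1)) (j + 1)).map
        fun l => (j + 1) :: l

lemma mem_partsF (f : ℕ) : ∀ (n m : ℕ) (l : List ℕ), l.Pairwise (fun a b => b ≤ a) →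
    (∀ b ∈ l, 0 < b) → (∀ b ∈ l, b ≤ m) → l.sum = n → l.length ≤ f → l ∈ partsF f n m := by
  induction f with
  | zero =>
    intro n m l _ _ _ hs hl
    have : l = [] := List.length_eq_zero_iff.1 (by omega)
    subst this
    rw [partsF, if_pos (by simpa using hs.symm)]
    simp
  | succ f ih =>
    intro n m l hd hp hm hs hl
    rw [partsF]
    cases l with
    | nil =>
      rw [if_pos (by simpa using hs.symm)]
      simp
    | cons a l =>
      have ha := hp a List.mem_cons_self
      have ham := hm a List.mem_cons_self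
      rw [List.sum_cons] at hs
      rw [if_neg (by omega), List.mem_flatMap]
      refine ⟨a - 1, ?_, ?_⟩
      · rw [List.mem_range]
        omega
      · rw [List.mem_map]
        refine ⟨l, ?_, by congr 1; omega⟩
        rw [show a - 1 + 1 = a by omega]
        apply ih
        · exact List.Pairwise.of_cons hd
        · exact fun b hb => hp b (List.mem_cons_of_mem _ hb)
        · exact fun b hb => List.rel_of_pairwise_cons hd hb
        · omega
        · simp at hl
          omega

end Pool.Agent.V11165.SNP
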