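import Pool.Agent.V11165.SNP.Peel

/-!
# Chromatic polynomials in `k` variables satisfy the peeling recursion
-/

set_option autoImplicit false
set_option linter.unusedSectionVars false

namespace Pool.Agent.V11165.SNP

open MvPolynomial

variable {V : Type} [Fintype V] [DecidableEq V] (G : SimpleGraph V)

/-- Stable sets. -/
def Stable (S : Finset V) : Prop := ∀ u ∈ S, ∀ v ∈ S, ¬ G.Adj u v

open scoped Classical in
/-- Removal of a stable set. -/
noncomputable def stepG (H : Finset V) : Multiset (Finset V × ℕ) :=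
  (H.powerset.filter fun S => Stable G S).val.map fun S => (H \ S, S.card)

/-- The empty set. -/
def initG (H : Finset V) : ℕ := if H = ∅ then 1 else 0

open scoped Classical in
lemma stpG_sum (b : ℕ) (H : Finset V) (F : Finset V → ℕ) :
    ((stp (stepG G) b H).map F).sum =
      ∑ S ∈ H.powerset.filter (fun S => Stable G S ∧ S.card = b), F (H \ S) := by
  unfold stp stepG
  rw [Multiset.filter_map, Multiset.map_map, Multiset.map_map, ← Finset.filter_val,
    Finset.filter_filter]
  rfl

theorem commG : Comm (stepG G) := by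
  classical
  intro H b b' F
  simp only [stpG_sum]
  rw [Finset.sum_sigma', Finset.sum_sigma']
  have main : ∀ (b b' : ℕ) (p : (_ : Finset V) × Finset V),
      p ∈ (H.powerset.filter (fun S => Stable G S ∧ S.card = b)).sigma
        (fun S => (H \ S).powerset.filter (fun S => Stable G S ∧ S.card = b')) →
      (⟨p.2, p.1⟩ : (_ : Finset V) × Finset V) ∈
        (H.powerset.filter (fun S => Stable G S ∧ S.card = b')).sigma
          (fun S => (H \ S).powerset.filter (fun S => Stable G S ∧ S.card = b)) := by
    rintro b b' ⟨S, S'⟩ hp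
    simp only [Finset.mem_sigma, Finset.mem_filter, Finset.mem_powerset] at hp ⊢
    obtain ⟨⟨h1, h2⟩, h3, h4⟩ := hp
    refine ⟨⟨h3.trans Finset.sdiff_subset, h4⟩, ?_, h2⟩
    intro x hx
    rw [Finset.mem_sdiff]
    exact ⟨h1 hx, fun hx' => (Finset.mem_sdiff.1 (h3 hx')).2 hx⟩
  refine Finset.sum_bij' (fun p _ => ⟨p.2, p.1⟩) (fun p _ => ⟨p.2, p.1⟩)
    (fun p hp => main b b' p hp) (fun p hp => main b' b p hp) (fun p _ => rfl) (fun p _ => rfl) ?_
  rintro ⟨S, S'⟩ _
  simp only
  congr 1
  ext x
  simp only [Finset.mem_sdiff]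
  tauto

lemma stp_zero_stepG (H : Finset V) : stp (stepG G) 0 H = {H} := by
  classical
  unfold stp stepG
  rw [Multiset.filter_map, Multiset.map_map, ← Finset.filter_val, Finset.filter_filter]
  have : H.powerset.filter (fun S => Stable G S ∧
      ((fun p : Finset V × ℕ => p.2 = 0) ∘ fun S => (H \ S, S.card)) S) = {∅} := by
    ext S
    simp only [Finset.mem_filter, Finset.mem_powerset, Function.comp, Finset.card_eq_zero,
      Finset.mem_singleton]
    constructor
    · rintro ⟨_, _, h⟩
      exact h
    · rintro rfl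
      refine ⟨Finset.empty_subset _, ?_, rfl⟩
      intro u hu
      simp at hu
  rw [this]
  simp

lemma cntG_sum (β : List ℕ) : ∀ H : Finset V, cnt (stepG G) initG β H ≠ 0 → β.sum = H.card := by
  classical
  induction β with
  | nil =>
    intro H h
    unfold cnt initG at h
    by_contra hc
    apply h
    rw [if_neg]
    rintro rfl
    simp at hc
  | cons b β ih =>
    intro H h
    rw [cnt_cons, stpG_sum] at h
    obtain ⟨S, hS, h2⟩ := Finset.exists_ne_zero_of_sum_ne_zero h
    have := ih _ h2
    simp only [Finset.mem_filter, Finset.mem_powerset] at hS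
    have h3 := Finset.card_sdiff_add_card_eq_card hS.1
    rw [List.sum_cons]
    omega

/-- Colourings of `H` with colours `< k`, extended by zero. -/
noncomputable def colF (H : Finset V) (k : ℕ) : Finset (V → ℕ) := by
  classical
  exact (Fintype.piFinset fun v => if v ∈ H then Finset.range k else {0}).filter
    fun κ => ∀ u ∈ H, ∀ v ∈ H, G.Adj u v → κ u ≠ κ v

lemma mem_colF {H : Finset V} {k : ℕ} {κ : V → ℕ} : κ ∈ colF G H k ↔
    (∀ v ∈ H, κ v < k) ∧ (∀ v, v ∉ H → κ v = 0) ∧
      (∀ u ∈ H, ∀ v ∈ H, G.Adj u v → κ u ≠ κ v) := by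
  classical
  unfold colF
  rw [Finset.mem_filter, Fintype.mem_piFinset]
  constructor
  · rintro ⟨h1, h2⟩
    refine ⟨fun v hv => ?_, fun v hv => ?_, h2⟩
    · have := h1 v
      rw [if_pos hv, Finset.mem_range] at this
      exact this
    · have := h1 v
      rw [if_neg hv, Finset.mem_singleton] at this
      exact this
  · rintro ⟨h1, h2, h3⟩
    refine ⟨fun v => ?_, h3⟩
    by_cases hv : v ∈ H
    · rw [if_pos hv, Finset.mem_range]
      exact h1 v hv
    · rw [if_neg hv, Finset.mem_singleton]
      exact h2 v hv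

open scoped Classical in
lemma sum_colF_succ (H : Finset V) (k : ℕ) :
    ∑ κ ∈ colF G H (k + 1), ∏ v ∈ H, (X (κ v) : MvPolynomial ℕ ℤ) =
      ∑ S ∈ H.powerset.filter (fun S => Stable G S),
        X k ^ S.card * ∑ κ ∈ colF G (H \ S) k, ∏ v ∈ H \ S, (X (κ v) : MvPolynomial ℕ ℤ) := by
  simp only [Finset.mul_sum]
  rw [Finset.sum_sigma']
  refine Finset.sum_bij' (fun κ _ => ⟨H.filter (fun v => κ v = k), fun v => if κ v = k then 0
    else κ v⟩) (fun p _ => fun v => if v ∈ p.1 then k else p.2 v) ?_ ?_ ?_ ?_ ?_
  · intro κ hκ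
    rw [mem_colF] at hκ
    obtain ⟨h1, h2, h3⟩ := hκ
    rw [Finset.mem_sigma, Finset.mem_filter, Finset.mem_powerset, mem_colF]
    refine ⟨⟨Finset.filter_subset _ _, ?_⟩, ?_, ?_, ?_⟩
    · intro u hu v hv huv
      rw [Finset.mem_filter] at hu hv
      exact h3 u hu.1 v hv.1 huv (hu.2.trans hv.2.symm)
    · intro v hv
      simp only [Finset.mem_sdiff, Finset.mem_filter, not_and] at hv
      have h4 := hv.2 hv.1
      have h5 := h1 v hv.1
      simp only
      rw [if_neg h4]
      omega
    · intro v hv
      simp only [Finset.mem_sdiff, Finset.mem_filter, not_and, not_forall, not_not] at hv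
      simp only
      split_ifs with h4
      · rfl
      · apply h2
        intro h5
        obtain ⟨_, h6⟩ := hv h5
        exact h4 h6
    · intro u hu v hv huv
      simp only [Finset.mem_sdiff, Finset.mem_filter, not_and] at hu hv
      simp only
      rw [if_neg (hu.2 hu.1), if_neg (hv.2 hv.1)]
      exact h3 u hu.1 v hv.1 huv
  · rintro ⟨S, κ⟩ hp
    rw [Finset.mem_sigma, Finset.mem_filter, Finset.mem_powerset, mem_colF] at hp
    obtain ⟨⟨h1, h2⟩, h3, h4, h5⟩ := hp
    simp only at h1 h2 h3 h4 h5
    rw [mem_colF]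
    refine ⟨?_, ?_, ?_⟩
    · intro v hv
      simp only
      split_ifs with h
      · omega
      · have := h3 v (Finset.mem_sdiff.2 ⟨hv, h⟩)
        omega
    · intro v hv
      simp only
      rw [if_neg (fun h => hv (h1 h))]
      exact h4 v (fun h => hv (Finset.mem_sdiff.1 h).1)
    · intro u hu v hv huv
      simp only
      by_cases hu' : u ∈ S
      · rw [if_pos hu']
        have hv' : v ∉ S := fun h => h2 u hu' v h huv
        rw [if_neg hv']
        have := h3 v (Finset.mem_sdiff.2 ⟨hv, hv'⟩)
        omega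
      · rw [if_neg hu']
        by_cases hv' : v ∈ S
        · rw [if_pos hv']
          have := h3 u (Finset.mem_sdiff.2 ⟨hu, hu'⟩)
          omega
        · rw [if_neg hv']
          exact h5 u (Finset.mem_sdiff.2 ⟨hu, hu'⟩) v (Finset.mem_sdiff.2 ⟨hv, hv'⟩) huv
  · intro κ hκ
    rw [mem_colF] at hκ
    obtain ⟨h1, h2, h3⟩ := hκ
    funext v
    simp only [Finset.mem_filter]
    by_cases h : κ v = k
    · by_cases hv : v ∈ H
      · rw [if_pos ⟨hv, h⟩, h]
      · rw [if_neg (fun h' => hv h'.1), if_pos h, h2 v hv]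
    · rw [if_neg (fun h' => h h'.2), if_neg h]
  · rintro ⟨S, κ⟩ hp
    rw [Finset.mem_sigma, Finset.mem_filter, Finset.mem_powerset, mem_colF] at hp
    obtain ⟨⟨h1, h2⟩, h3, h4, h5⟩ := hp
    simp only at h1 h2 h3 h4 h5
    have e1 : H.filter (fun v => (if v ∈ S then k else κ v) = k) = S := by
      ext v
      rw [Finset.mem_filter]
      constructor
      · rintro ⟨hv, h⟩
        by_contra hc
        rw [if_neg hc] at h
        have := h3 v (Finset.mem_sdiff.2 ⟨hv, hc⟩)
        omega
      · intro hv
        exact ⟨h1 hv, if_pos hv⟩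
    have e2 : (fun v => if (if v ∈ S then k else κ v) = k then 0 else
        (if v ∈ S then k else κ v)) = κ := by
      funext v
      by_cases hv : v ∈ S
      · rw [if_pos hv, if_pos rfl, h4 v (fun h => (Finset.mem_sdiff.1 h).2 hv)]
      · rw [if_neg hv]
        by_cases h : κ v = k
        · rw [if_pos h]
          by_cases hvH : v ∈ H
          · have := h3 v (Finset.mem_sdiff.2 ⟨hvH, hv⟩)
            omega
          · rw [h4 v (fun h => hvH (Finset.mem_sdiff.1 h).1)]
        · rw [if_neg h]
    simp only [e1, e2]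
  · intro κ hκ
    rw [mem_colF] at hκ
    obtain ⟨h1, h2, h3⟩ := hκ
    simp only
    rw [← Finset.prod_sdiff (Finset.filter_subset (fun v => κ v = k) H), mul_comm]
    congr 1
    · rw [← Finset.prod_const]
      apply Finset.prod_congr rfl
      intro v hv
      rw [(Finset.mem_filter.1 hv).2]
    · apply Finset.prod_congr rfl
      intro v hv
      rw [Finset.mem_sdiff, Finset.mem_filter, not_and] at hv
      rw [if_neg (hv.2 hv.1)]

theorem sum_colF (k : ℕ) : ∀ H : Finset V,
    ∑ κ ∈ colF G H k, ∏ v ∈ H, (X (κ v) : MvPolynomial ℕ ℤ) = poly (stepG G) initG k H := by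
  classical
  induction k with
  | zero =>
    intro H
    rw [poly, initG]
    by_cases h : H = ∅
    · subst h
      rw [if_pos rfl]
      have : colF G (∅ : Finset V) 0 = {fun _ => 0} := by
        ext κ
        rw [mem_colF, Finset.mem_singleton]
        constructor
        · rintro ⟨_, h2, _⟩
          funext v
          exact h2 v (by simp)
        · rintro rfl
          exact ⟨by simp, by simp, by simp⟩
      rw [this]
      simp
    · rw [if_neg h]
      obtain ⟨v, hv⟩ := Finset.nonempty_iff_ne_empty.2 h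
      have : colF G H 0 = ∅ := by
        rw [Finset.eq_empty_iff_forall_notMem]
        intro κ hκ
        rw [mem_colF] at hκ
        have := hκ.1 v hv
        omega
      rw [this]
      simp
  | succ k ih =>
    intro H
    rw [sum_colF_succ, poly, stepG, Multiset.map_map]
    apply Finset.sum_congr rfl
    intro S _
    rw [ih]
    rfl

/-- The chromatic polynomial in `k` variables. -/
noncomputable def XP (k : ℕ) : MvPolynomial ℕ ℤ :=
  ∑ᶠ κ : {κ : V → Fin k // ∀ u v, G.Adj u v → κ u ≠ κ v},
    ∏ v, (X ((κ.1 v : ℕ)) : MvPolynomial ℕ ℤ)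

theorem XP_eq (k : ℕ) : XP G k = poly (stepG G) initG k Finset.univ := by
  classical
  rw [← sum_colF]
  unfold XP
  let e : {κ : V → Fin k // ∀ u v, G.Adj u v → κ u ≠ κ v} ≃
      {κ // κ ∈ colF G Finset.univ k} :=
    { toFun := fun κ => ⟨fun v => (κ.1 v : ℕ), (mem_colF G).2 ⟨fun v _ => (κ.1 v).2,
        fun v hv => absurd (Finset.mem_univ v) hv,
        fun u _ v _ huv h => κ.2 u v huv (Fin.ext h)⟩⟩
      invFun := fun κ => ⟨fun v => ⟨κ.1 v, ((mem_colF G).1 κ.2).1 v (Finset.mem_univ v)⟩,
        fun u v huv h => ((mem_colF G).1 κ.2).2.2 u (Finset.mem_univ u) v (Finset.mem_univ v) huv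
          (congrArg Fin.val h)⟩
      left_inv := fun κ => rfl
      right_inv := fun κ => rfl }
  rw [← finsum_comp_equiv e.symm, finsum_eq_sum_of_fintype,
    ← Finset.sum_coe_sort (colF G Finset.univ k)]
  rfl

/-! ### The vertex recursion for the counts -/

lemma sum_map_sum {ι : Type*} (s : Finset ι) (β : List ℕ) (f : ι → ℕ → ℕ) :
    ∑ i ∈ s, (β.map (f i)).sum = (β.map fun j => ∑ i ∈ s, f i j).sum := by
  induction β with
  | nil => simp
  | cons j β ih => simp [Finset.sum_add_distrib, ih]

open scoped Classical in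
/-- The sum over the stable sets of size `j` containing `v`. -/
noncomputable def TT (v : V) (H : Finset V) (j : ℕ) (F : Finset V → ℕ) : ℕ :=
  ∑ S ∈ H.powerset.filter (fun S => (Stable G S ∧ S.card = j) ∧ v ∈ S), F (H \ S)

lemma TT_congr (v : V) (H : Finset V) (j : ℕ) (F F' : Finset V → ℕ) (h : ∀ H, F H = F' H) :
    TT G v H j F = TT G v H j F' := by
  unfold TT
  exact Finset.sum_congr rfl (fun S _ => h _)

theorem vertex_rec (β : List ℕ) : ∀ (H : Finset V) (v : V), v ∈ H →
    cnt (stepG G) initG β H =
      (β.map fun j => TT G v H j (cnt (stepG G) initG (β.erase j))).sum := by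
  classical
  induction β with
  | nil =>
    intro H v hv
    unfold cnt initG
    rw [if_neg]
    · rfl
    · rintro rfl
      simp at hv
  | cons j β ih =>
    intro H v hv
    rw [cnt_cons, stpG_sum, ← Finset.sum_filter_add_sum_filter_not _ (fun S => v ∈ S),
      Finset.filter_filter, Finset.filter_filter, List.map_cons, List.sum_cons]
    congr 1
    · unfold TT
      rw [List.erase_cons_head]
    · have e1 : ∀ S ∈ H.powerset.filter (fun S => (Stable G S ∧ S.card = j) ∧ ¬ v ∈ S),
          cnt (stepG G) initG β (H \ S) =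
            (β.map fun j' => TT G v (H \ S) j' (cnt (stepG G) initG (β.erase j'))).sum := by
        intro S hS
        apply ih
        rw [Finset.mem_filter] at hS
        exact Finset.mem_sdiff.2 ⟨hv, hS.2.2⟩
      rw [Finset.sum_congr rfl e1, sum_map_sum]
      congr 1
      apply List.map_congr_left
      intro j' hj'
      have e2 : ∀ H', cnt (stepG G) initG ((j :: β).erase j') H' =
          cnt (stepG G) initG (j :: β.erase j') H' := by
        intro H'
        apply cnt_perm _ _ (commG G)
        by_cases h : j = j'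
        · subst h
          rw [List.erase_cons_head]
          exact List.perm_cons_erase hj'
        · rw [List.erase_cons_tail (by simpa using h)]
      rw [TT_congr G v H j' _ _ e2]
      unfold TT
      simp only [cnt_cons, stpG_sum]
      rw [Finset.sum_sigma', Finset.sum_sigma']
      refine Finset.sum_bij' (fun p _ => ⟨p.2, p.1⟩) (fun p _ => ⟨p.2, p.1⟩) ?_ ?_
        (fun p _ => rfl) (fun p _ => rfl) ?_
      · rintro ⟨S, S'⟩ hp
        simp only [Finset.mem_sigma, Finset.mem_filter, Finset.mem_powerset] at hp ⊢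
        obtain ⟨⟨h1, h2, h3⟩, h4, h5, h6⟩ := hp
        refine ⟨⟨h4.trans Finset.sdiff_subset, h5, h6⟩, ?_, h2⟩
        intro x hx
        rw [Finset.mem_sdiff]
        exact ⟨h1 hx, fun hx' => (Finset.mem_sdiff.1 (h4 hx')).2 hx⟩
      · rintro ⟨S, S'⟩ hp
        simp only [Finset.mem_sigma, Finset.mem_filter, Finset.mem_powerset] at hp ⊢
        obtain ⟨⟨h1, h2, h3⟩, h4, h5⟩ := hp
        refine ⟨⟨h4.trans Finset.sdiff_subset, h5, ?_⟩, ?_, h2, h3⟩
        · intro hx
          exact (Finset.mem_sdiff.1 (h4 hx)).2 h3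
        · intro x hx
          rw [Finset.mem_sdiff]
          exact ⟨h1 hx, fun hx' => (Finset.mem_sdiff.1 (h4 hx')).2 hx⟩
      · rintro ⟨S, S'⟩ _
        simp only
        congr 1
        ext x
        simp only [Finset.mem_sdiff]
        tauto

end Pool.Agent.V11165.SNP
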