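import Mathlib

/-!
# Peeling recursions for polynomials

A generic recursion `poly` for polynomials in the variables `X 0, …, X (k-1)`, peeling off the
last variable, and the corresponding recursion `cnt` for their coefficients.
-/

set_option autoImplicit false

namespace Pool.Agent.V11165.SNP

open MvPolynomial

variable {α : Type*}

/-- The polynomial of the state `a` in the variables `X 0, …, X (k-1)`. -/
noncomputable def poly (step : α → Multiset (α × ℕ)) (init : α → ℕ) :
    ℕ → α → MvPolynomial ℕ ℤ
  | 0, a => C (init a : ℤ)
  | k + 1, a => ((step a).map fun p => X k ^ p.2 * poly step init k p.1).sum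

/-- The number of chains of states with prescribed step sizes. -/
def cnt (step : α → Multiset (α × ℕ)) (init : α → ℕ) : List ℕ → α → ℕ
  | [], a => init a
  | b :: β, a => (((step a).filter fun p => p.2 = b).map fun p => cnt step init β p.1).sum

/-- The exponents `[m (k-1), …, m 0]`. -/
def expo (m : ℕ →₀ ℕ) : ℕ → List ℕ
  | 0 => []
  | k + 1 => m k :: expo m k

lemma expo_congr {m m' : ℕ →₀ ℕ} (k : ℕ) (h : ∀ i < k, m i = m' i) : expo m k = expo m' k := by
  induction k with
  | zero => rfl
  | succ k ih =>
    rw [expo, expo, h k (by omega), ih (fun i hi => h i (by omega))]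

lemma coeff_X_pow_mul_aux (m : ℕ →₀ ℕ) (k s : ℕ) (p : MvPolynomial ℕ ℤ) :
    coeff m (X k ^ s * p) = if s ≤ m k then coeff (m - Finsupp.single k s) p else 0 := by
  rw [X_pow_eq_monomial, coeff_monomial_mul']
  by_cases h : s ≤ m k
  · rw [if_pos h, if_pos (by rwa [Finsupp.single_le_iff]), one_mul]
  · rw [if_neg h, if_neg (by rwa [Finsupp.single_le_iff])]

open scoped Classical in
theorem coeff_poly (step : α → Multiset (α × ℕ)) (init : α → ℕ) (k : ℕ) :
    ∀ (a : α) (m : ℕ →₀ ℕ), coeff m (poly step init k a) =
      if (∀ i, k ≤ i → m i = 0) then (cnt step init (expo m k) a : ℤ) else 0 := by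
  induction k with
  | zero =>
    intro a m
    rw [poly, coeff_C]
    by_cases h : ∀ i, 0 ≤ i → m i = 0
    · have : (0 : ℕ →₀ ℕ) = m := by
        ext i; simp [h i (Nat.zero_le i)]
      rw [if_pos this, if_pos h]
      rfl
    · rw [if_neg h, if_neg]
      rintro rfl
      exact h (fun i _ => rfl)
  | succ k ih =>
    intro a m
    have key : ∀ p : α × ℕ, coeff m (X k ^ p.2 * poly step init k p.1) =
        if p.2 = m k ∧ (∀ i, k + 1 ≤ i → m i = 0) then
          (cnt step init (expo m k) p.1 : ℤ) else 0 := by
      intro p
      rw [coeff_X_pow_mul_aux, ih]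
      by_cases h1 : p.2 ≤ m k
      · rw [if_pos h1]
        by_cases h23 : p.2 = m k ∧ (∀ i, k + 1 ≤ i → m i = 0)
        · obtain ⟨h2, h3⟩ := h23
          have hL : ∀ i, k ≤ i → (m - Finsupp.single k p.2) i = 0 := by
            intro i hi
            rcases Nat.eq_or_lt_of_le hi with h4 | h4
            · subst h4; simp [h2]
            · simp [h3 i h4]
          rw [if_pos hL, if_pos ⟨h2, h3⟩]
          congr 2
          apply expo_congr
          intro i hi
          simp [Finsupp.single_apply, show k ≠ i by omega]
        · have hL : ¬ ∀ i, k ≤ i → (m - Finsupp.single k p.2) i = 0 := by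
            intro h
            apply h23
            refine ⟨?_, ?_⟩
            · have := h k le_rfl
              simp at this
              omega
            · intro i hi
              have := h i (by omega)
              simpa [Finsupp.single_apply, show k ≠ i by omega] using this
          rw [if_neg hL, if_neg h23]
      · have h23 : ¬ (p.2 = m k ∧ (∀ i, k + 1 ≤ i → m i = 0)) := by
          rintro ⟨h2, _⟩
          omega
        rw [if_neg h1, if_neg h23]
    rw [poly, ← lcoeff_apply (R := ℤ), map_multiset_sum, Multiset.map_map]
    have e1 : (Multiset.map (⇑(lcoeff ℤ m) ∘ fun p => X k ^ p.2 * poly step init k p.1) (step a))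
        = (step a).map (fun p => if p.2 = m k ∧ (∀ i, k + 1 ≤ i → m i = 0) then
          (cnt step init (expo m k) p.1 : ℤ) else 0) := by
      apply Multiset.map_congr rfl
      intro p _
      exact key p
    rw [e1]
    by_cases h3 : ∀ i, k + 1 ≤ i → m i = 0
    · rw [if_pos h3, expo, cnt]
      have e2 : ∀ s : Multiset (α × ℕ), (s.map (fun p => if p.2 = m k ∧
          (∀ i, k + 1 ≤ i → m i = 0) then (cnt step init (expo m k) p.1 : ℤ) else 0)).sum =
          (((s.filter fun p => p.2 = m k).map fun p => cnt step init (expo m k) p.1).sum : ℕ) := by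
        intro s
        induction s using Multiset.induction_on with
        | empty => simp
        | cons p s ihs =>
          rw [Multiset.map_cons, Multiset.sum_cons, ihs]
          by_cases h4 : p.2 = m k
          · rw [if_pos ⟨h4, h3⟩, Multiset.filter_cons_of_pos (p := fun p : α × ℕ => p.2 = m k) _ h4,
              Multiset.map_cons, Multiset.sum_cons]
            push_cast
            ring
          · rw [if_neg (fun h => h4 h.1),
              Multiset.filter_cons_of_neg (p := fun p : α × ℕ => p.2 = m k) _ h4]
            ring
      exact e2 _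
    · rw [if_neg h3]
      have : ∀ s : Multiset (α × ℕ), (s.map (fun p => if p.2 = m k ∧
          (∀ i, k + 1 ≤ i → m i = 0) then (cnt step init (expo m k) p.1 : ℤ) else 0)).sum = 0 := by
        intro s
        induction s using Multiset.induction_on with
        | empty => simp
        | cons p s ihs =>
          rw [Multiset.map_cons, Multiset.sum_cons, ihs, if_neg (fun h => h3 h.2)]
          ring
      exact this _

open scoped Classical in
/-- If the counts agree, the polynomials agree. -/
theorem poly_eq_of_cnt {β : Type*} (step : α → Multiset (α × ℕ)) (init : α → ℕ) (a : α)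
    (step' : β → Multiset (β × ℕ)) (init' : β → ℕ) (c : List (β × ℕ))
    (h : ∀ l : List ℕ, cnt step init l a = (c.map fun p => p.2 * cnt step' init' l p.1).sum)
    (k : ℕ) : poly step init k a = (c.map fun p => (p.2 : MvPolynomial ℕ ℤ) *
      poly step' init' k p.1).sum := by
  ext m
  rw [coeff_poly, h]
  have : ∀ c : List (β × ℕ), coeff m ((c.map fun p => (p.2 : MvPolynomial ℕ ℤ) *
      poly step' init' k p.1).sum) = if (∀ i, k ≤ i → m i = 0) then
        (((c.map fun p => p.2 * cnt step' init' (expo m k) p.1).sum : ℕ) : ℤ) else 0 := by
    intro c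
    induction c with
    | nil => simp
    | cons p c ih =>
      rw [List.map_cons, List.sum_cons, coeff_add, ih, List.map_cons, List.sum_cons,
        ← C_eq_coe_nat, coeff_C_mul, coeff_poly]
      split_ifs with h1
      · push_cast; ring
      · ring
  rw [this]

/-! ### Symmetry of the counts -/

/-- The step of size `b` as a multiset of states. -/
def stp (step : α → Multiset (α × ℕ)) (b : ℕ) (a : α) : Multiset α :=
  ((step a).filter fun p => p.2 = b).map Prod.fst

lemma cnt_cons (step : α → Multiset (α × ℕ)) (init : α → ℕ) (b : ℕ) (β : List ℕ) (a : α) :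
    cnt step init (b :: β) a = ((stp step b a).map (cnt step init β)).sum := by
  rw [cnt, stp, Multiset.map_map]
  rfl

/-- Steps of different sizes commute. -/
def Comm (step : α → Multiset (α × ℕ)) : Prop :=
  ∀ (a : α) (b b' : ℕ) (F : α → ℕ),
    ((stp step b a).map fun a' => ((stp step b' a').map F).sum).sum =
      ((stp step b' a).map fun a' => ((stp step b a').map F).sum).sum

theorem cnt_perm (step : α → Multiset (α × ℕ)) (init : α → ℕ) (hc : Comm step) {β β' : List ℕ}
    (h : β.Perm β') : ∀ a, cnt step init β a = cnt step init β' a := by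
  induction h with
  | nil => intro a; rfl
  | cons b _ ih =>
    intro a
    rw [cnt_cons, cnt_cons]
    congr 1
    exact Multiset.map_congr rfl (fun a' _ => ih a')
  | swap b b' β =>
    intro a
    rw [cnt_cons, cnt_cons]
    have e : ∀ b, cnt step init (b :: β) = fun a' => ((stp step b a').map (cnt step init β)).sum :=
      fun b => funext fun a' => cnt_cons step init b β a'
    rw [e, e]
    exact hc a b' b _
  | trans _ _ ih1 ih2 => intro a; rw [ih1, ih2]

theorem cnt_filter (step : α → Multiset (α × ℕ)) (init : α → ℕ)
    (h0 : ∀ a, stp step 0 a = {a}) (β : List ℕ) :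
    ∀ a, cnt step init β a = cnt step init (β.filter (fun b => b ≠ 0)) a := by
  induction β with
  | nil => intro a; rfl
  | cons b β ih =>
    intro a
    by_cases hb : b = 0
    · subst hb
      rw [cnt_cons, h0, Multiset.map_singleton, Multiset.sum_singleton, ih]
      simp
    · rw [List.filter_cons_of_pos (by simpa using hb), cnt_cons, cnt_cons]
      congr 1
      exact Multiset.map_congr rfl (fun a' _ => ih a')

end Pool.Agent.V11165.SNP
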