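import Pool.Agent.V11165.SNP.Peel

/-!
# Interlacing lists and the symmetry of Kostka numbers
-/

set_option autoImplicit false

namespace Pool.Agent.V11165.SNP

/-- The lists interlacing with `l`: `l₁ ≤ x₀ ≤ l₀`, `l₂ ≤ x₁ ≤ l₁`, …. -/
def interl : List ℕ → List (List ℕ)
  | [] => [[]]
  | a :: l => (List.range (a + 1 - l.headD 0)).flatMap fun t =>
      (interl l).map fun ν => (l.headD 0 + t) :: ν

/-- The interlacing predicate. -/
def Inter : List ℕ → List ℕ → Prop
  | [], [] => True
  | a :: l, x :: ν => (l.headD 0 ≤ x ∧ x ≤ a) ∧ Inter l ν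
  | _, _ => False

lemma mem_interl (l : List ℕ) : ∀ ν, ν ∈ interl l ↔ Inter l ν := by
  induction l with
  | nil =>
    intro ν
    cases ν <;> simp [interl, Inter]
  | cons a l ih =>
    intro ν
    cases ν with
    | nil => simp [interl, Inter]
    | cons x ν =>
      simp only [interl, Inter, List.mem_flatMap, List.mem_range, List.mem_map, List.cons.injEq]
      constructor
      · rintro ⟨t, ht, ν', hν', rfl, rfl⟩
        exact ⟨⟨by omega, by omega⟩, (ih _).1 hν'⟩
      · rintro ⟨⟨h1, h2⟩, h3⟩
        exact ⟨x - l.headD 0, by omega, ν, (ih _).2 h3, by omega, rfl⟩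

lemma nodup_interl (l : List ℕ) : (interl l).Nodup := by
  induction l with
  | nil => simp [interl]
  | cons a l ih =>
    rw [interl, List.nodup_flatMap]
    refine ⟨fun t _ => ih.map (fun x y h => (List.cons.inj h).2), ?_⟩
    apply List.Pairwise.imp _ (List.nodup_range (n := a + 1 - l.headD 0))
    intro s t hst
    simp only [Function.onFun, List.disjoint_left, List.mem_map]
    rintro x ⟨ν, _, rfl⟩ ⟨ν', _, h⟩
    apply hst
    have := (List.cons.inj h).1
    omega

lemma Inter.length {l ν : List ℕ} (h : Inter l ν) : ν.length = l.length := by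
  induction l generalizing ν with
  | nil => cases ν with
    | nil => rfl
    | cons => simp [Inter] at h
  | cons a l ih => cases ν with
    | nil => simp [Inter] at h
    | cons x ν => simp [ih h.2]

lemma Inter.sum_le {l ν : List ℕ} (h : Inter l ν) : ν.sum ≤ l.sum := by
  induction l generalizing ν with
  | nil => cases ν with
    | nil => simp
    | cons => simp [Inter] at h
  | cons a l ih => cases ν with
    | nil => simp [Inter] at h
    | cons x ν =>
      have := ih h.2
      have := h.1
      simp only [List.sum_cons]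
      omega

lemma Inter.eq_of_sum {l ν : List ℕ} (h : Inter l ν) (hs : ν.sum = l.sum) : ν = l := by
  induction l generalizing ν with
  | nil => cases ν with
    | nil => rfl
    | cons => simp [Inter] at h
  | cons a l ih => cases ν with
    | nil => simp [Inter] at h
    | cons x ν =>
      have h1 := Inter.sum_le h.2
      have h2 := h.1
      simp only [List.sum_cons] at hs
      have h3 : x = a := by omega
      have h4 : ν.sum = l.sum := by omega
      rw [h3, ih h.2 h4]

/-- Weakly decreasing lists. -/
def Desc (l : List ℕ) : Prop := l.Pairwise (fun a b => b ≤ a)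

lemma Desc.head {a : ℕ} {l : List ℕ} (h : Desc (a :: l)) : l.headD 0 ≤ a := by
  cases l with
  | nil => simp
  | cons b l =>
    have := List.rel_of_pairwise_cons h (List.mem_cons_self)
    simpa using this

lemma Inter.self {l : List ℕ} (h : Desc l) : Inter l l := by
  induction l with
  | nil => trivial
  | cons a l ih => exact ⟨⟨h.head, le_rfl⟩, ih (List.Pairwise.of_cons h)⟩

/-- `Ok c l ν ρ`: `l ≥ ν ≥ ρ` interlace and the first entry of `ν` is at most `c`. -/
def Ok : ℕ → List ℕ → List ℕ → List ℕ → Prop
  | _, [], [], [] => True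
  | c, a :: l, x :: ν, r :: ρ => (l.headD 0 ≤ x ∧ x ≤ a ∧ r ≤ x ∧ x ≤ c) ∧ Ok r l ν ρ
  | _, _, _, _ => False

lemma ok_of_inter {l : List ℕ} : ∀ {c : ℕ} {ν ρ : List ℕ}, Inter l ν → Inter ν ρ →
    ν.headD 0 ≤ c → Ok c l ν ρ := by
  induction l with
  | nil =>
    intro c ν ρ h1 h2 _
    cases ν with
    | cons => simp [Inter] at h1
    | nil => cases ρ with
      | cons => simp [Inter] at h2
      | nil => trivial
  | cons a l ih =>
    intro c ν ρ h1 h2 h3
    cases ν with
    | nil => simp [Inter] at h1
    | cons x ν => cases ρ with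
      | nil => simp [Inter] at h2
      | cons r ρ =>
        obtain ⟨⟨h4, h5⟩, h6⟩ := h1
        obtain ⟨⟨h7, h8⟩, h9⟩ := h2
        exact ⟨⟨h4, h5, h8, by simpa using h3⟩, ih h6 h9 h7⟩

lemma inter_of_ok {l : List ℕ} : ∀ {c : ℕ} {ν ρ : List ℕ}, Ok c l ν ρ →
    Inter l ν ∧ Inter ν ρ ∧ ν.headD 0 ≤ c := by
  induction l with
  | nil =>
    intro c ν ρ h
    cases ν with
    | cons => cases ρ <;> simp [Ok] at h
    | nil => cases ρ with
      | cons => simp [Ok] at h
      | nil => exact ⟨trivial, trivial, by simp⟩
  | cons a l ih =>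
    intro c ν ρ h
    cases ν with
    | nil => cases ρ <;> simp [Ok] at h
    | cons x ν => cases ρ with
      | nil => simp [Ok] at h
      | cons r ρ =>
        obtain ⟨⟨h1, h2, h3, h4⟩, h5⟩ := h
        obtain ⟨h6, h7, h8⟩ := ih h5
        exact ⟨⟨⟨h1, h2⟩, h6⟩, ⟨⟨h8, h3⟩, h7⟩, by simpa using h4⟩

/-- The Bender–Knuth reflection. -/
def flip : ℕ → List ℕ → List ℕ → List ℕ → List ℕ
  | c, a :: l, x :: ν, r :: ρ => (max (l.headD 0) r + min a c - x) :: flip r l ν ρ
  | _, _, _, _ => []

lemma ok_flip {l : List ℕ} : ∀ {c : ℕ} {ν ρ : List ℕ}, Ok c l ν ρ → Ok c l (flip c l ν ρ) ρ := by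
  induction l with
  | nil =>
    intro c ν ρ h
    cases ν with
    | cons => cases ρ <;> simp [Ok] at h
    | nil => cases ρ with
      | cons => simp [Ok] at h
      | nil => simp [flip, Ok]
  | cons a l ih =>
    intro c ν ρ h
    cases ν with
    | nil => cases ρ <;> simp [Ok] at h
    | cons x ν => cases ρ with
      | nil => simp [Ok] at h
      | cons r ρ =>
        obtain ⟨⟨h1, h2, h3, h4⟩, h5⟩ := h
        rw [flip]
        exact ⟨⟨by omega, by omega, by omega, by omega⟩, ih h5⟩

lemma flip_flip {l : List ℕ} : ∀ {c : ℕ} {ν ρ : List ℕ}, Ok c l ν ρ →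
    flip c l (flip c l ν ρ) ρ = ν := by
  induction l with
  | nil =>
    intro c ν ρ h
    cases ν with
    | cons => cases ρ <;> simp [Ok] at h
    | nil => cases ρ with
      | cons => simp [Ok] at h
      | nil => simp [flip]
  | cons a l ih =>
    intro c ν ρ h
    cases ν with
    | nil => cases ρ <;> simp [Ok] at h
    | cons x ν => cases ρ with
      | nil => simp [Ok] at h
      | cons r ρ =>
        obtain ⟨⟨h1, h2, h3, h4⟩, h5⟩ := h
        rw [flip, flip, ih h5]
        congr 1
        omega

lemma sum_flip {l : List ℕ} : ∀ {c : ℕ} {ν ρ : List ℕ}, Ok c l ν ρ →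
    (flip c l ν ρ).sum + ν.sum = min (l.headD 0) c + l.tail.sum + ρ.sum := by
  induction l with
  | nil =>
    intro c ν ρ h
    cases ν with
    | cons => cases ρ <;> simp [Ok] at h
    | nil => cases ρ with
      | cons => simp [Ok] at h
      | nil => simp [flip]
  | cons a l ih =>
    intro c ν ρ h
    cases ν with
    | nil => cases ρ <;> simp [Ok] at h
    | cons x ν => cases ρ with
      | nil => simp [Ok] at h
      | cons r ρ =>
        obtain ⟨⟨h1, h2, h3, h4⟩, h5⟩ := h
        have h6 := ih h5
        rw [flip]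
        simp only [List.sum_cons, List.headD_cons, List.tail_cons]
        have h7 : l.sum = l.headD 0 + l.tail.sum := by cases l <;> simp
        omega

/-- The steps on shapes. -/
def stepS (l : List ℕ) : Multiset (List ℕ × ℕ) :=
  ((interl l).map fun ν => (ν, l.sum - ν.sum) : List (List ℕ × ℕ))

/-- The empty shape. -/
def initS (l : List ℕ) : ℕ := if l.sum = 0 then 1 else 0

lemma stp_stepS (b : ℕ) (l : List ℕ) :
    stp stepS b l = ((interl l).filter fun ν => l.sum - ν.sum = b : List (List ℕ)) := by
  unfold stp stepS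
  rw [Multiset.filter_coe, Multiset.map_coe, List.filter_map, List.map_map]
  congr 1
  conv_rhs => rw [← List.map_id ((interl l).filter _)]
  rfl

lemma stp_sum (b : ℕ) (l : List ℕ) (F : List ℕ → ℕ) :
    ((stp stepS b l).map F).sum =
      ∑ ν ∈ (interl l).toFinset.filter (fun ν => l.sum - ν.sum = b), F ν := by
  rw [stp_stepS, Multiset.map_coe, Multiset.sum_coe, ← List.sum_toFinset _
    ((nodup_interl l).filter _)]
  congr 1
  ext ν
  simp

theorem comm_stepS : Comm stepS := by
  intro l b b' F
  simp only [stp_sum]
  rw [Finset.sum_sigma', Finset.sum_sigma']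
  have hc : ∀ ν, Inter l ν → ν.headD 0 ≤ l.headD 0 := by
    intro ν h
    cases l with
    | nil => cases ν with
      | nil => simp
      | cons => simp [Inter] at h
    | cons a l => cases ν with
      | nil => simp
      | cons x ν => simpa using h.1.2
  have hsum : l.sum = l.headD 0 + l.tail.sum := by cases l <;> simp
  have main : ∀ (b b' : ℕ) (p : (_ : List ℕ) × List ℕ),
      p ∈ ((interl l).toFinset.filter (fun ν => l.sum - ν.sum = b)).sigma
        (fun ν => (interl ν).toFinset.filter (fun ρ => ν.sum - ρ.sum = b')) →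
      (⟨flip (l.headD 0) l p.1 p.2, p.2⟩ : (_ : List ℕ) × List ℕ) ∈
        ((interl l).toFinset.filter (fun ν => l.sum - ν.sum = b')).sigma
          (fun ν => (interl ν).toFinset.filter (fun ρ => ν.sum - ρ.sum = b)) ∧
      flip (l.headD 0) l (flip (l.headD 0) l p.1 p.2) p.2 = p.1 := by
    rintro b b' ⟨ν, ρ⟩ hp
    simp only [Finset.mem_sigma, Finset.mem_filter, List.mem_toFinset, mem_interl] at hp ⊢
    obtain ⟨⟨h1, h2⟩, h3, h4⟩ := hp
    have hok := ok_of_inter h1 h3 (hc ν h1)
    have hok' := ok_flip hok
    obtain ⟨h5, h6, _⟩ := inter_of_ok hok'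
    have h7 := sum_flip hok
    have s1 := h1.sum_le
    have s2 := h3.sum_le
    have s3 := h5.sum_le
    have s4 := h6.sum_le
    rw [min_self] at h7
    exact ⟨⟨⟨h5, by omega⟩, h6, by omega⟩, flip_flip hok⟩
  refine Finset.sum_bij' (fun p _ => ⟨flip (l.headD 0) l p.1 p.2, p.2⟩)
    (fun p _ => ⟨flip (l.headD 0) l p.1 p.2, p.2⟩) (fun p hp => (main b b' p hp).1)
    (fun p hp => (main b' b p hp).1) ?_ ?_ (fun p _ => rfl)
  · rintro ⟨ν, ρ⟩ hp
    have := (main b b' _ hp).2
    simp only at this ⊢
    rw [this]
  · rintro ⟨ν, ρ⟩ hp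
    have := (main b' b _ hp).2
    simp only at this ⊢
    rw [this]

/-! ### Shapes are weakly decreasing -/

lemma Inter.desc {l ν : List ℕ} (h : Inter l ν) : Desc l → Desc ν := by
  induction l generalizing ν with
  | nil => cases ν with
    | nil => intro _; exact List.Pairwise.nil
    | cons => simp [Inter] at h
  | cons a l ih => cases ν with
    | nil => simp [Inter] at h
    | cons x ν =>
      intro hd
      have h1 := ih h.2 (List.Pairwise.of_cons hd)
      refine List.Pairwise.cons ?_ h1
      intro y hy
      cases ν with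
      | nil => simp at hy
      | cons z ν =>
        have h2 : z ≤ x := by
          cases l with
          | nil => simp [Inter] at h
          | cons b l =>
            have := h.1.1
            have := h.2.1.2
            simp at *
            omega
        rcases List.mem_cons.1 hy with rfl | hy
        · exact h2
        · exact (List.rel_of_pairwise_cons h1 hy).trans h2

lemma stp_zero_stepS {l : List ℕ} (h : Desc l) : stp stepS 0 l = {l} := by
  rw [stp_stepS]
  have : (interl l).filter (fun ν => l.sum - ν.sum = 0) = [l] := by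
    have h1 : ∀ ν ∈ interl l, (decide (l.sum - ν.sum = 0) = true ↔ decide (ν = l) = true) := by
      intro ν hν
      rw [mem_interl] at hν
      rw [decide_eq_true_iff, decide_eq_true_iff]
      constructor
      · intro h2
        exact hν.eq_of_sum (by have := hν.sum_le; omega)
      · rintro rfl
        omega
    rw [List.filter_congr (fun ν hν => by
      have := h1 ν hν
      exact Bool.eq_iff_iff.2 this)]
    rw [show (fun ν => decide (ν = l)) = (fun ν => ν == l) by
      funext ν; exact Bool.eq_iff_iff.2 (by simp)]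
    rw [List.filter_beq, List.count_eq_one_of_mem (nodup_interl l)
      ((mem_interl l l).2 (Inter.self h))]
    rfl
  rw [this]
  rfl

theorem cnt_filterS (β : List ℕ) : ∀ l, Desc l →
    cnt stepS initS β l = cnt stepS initS (β.filter (fun b => b ≠ 0)) l := by
  induction β with
  | nil => intro a _; rfl
  | cons b β ih =>
    intro l hl
    by_cases hb : b = 0
    · subst hb
      rw [cnt_cons, stp_zero_stepS hl, Multiset.map_singleton, Multiset.sum_singleton, ih l hl]
      simp
    · rw [List.filter_cons_of_pos (by simpa using hb), cnt_cons, cnt_cons]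
      congr 1
      apply Multiset.map_congr rfl
      intro ν hν
      apply ih
      rw [stp_stepS, Multiset.mem_coe, List.mem_filter, mem_interl] at hν
      exact hν.1.desc hl

lemma cntS_sum (β : List ℕ) : ∀ l, cnt stepS initS β l ≠ 0 → β.sum = l.sum := by
  induction β with
  | nil =>
    intro l h
    unfold cnt initS at h
    by_contra hc
    apply h
    rw [if_neg]
    simpa using fun h => hc h.symm
  | cons b β ih =>
    intro l h
    rw [cnt_cons, stp_sum] at h
    obtain ⟨ν, hν, h2⟩ := Finset.exists_ne_zero_of_sum_ne_zero h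
    have := ih ν h2
    simp only [Finset.mem_filter, List.mem_toFinset, mem_interl] at hν
    have := hν.1.sum_le
    rw [List.sum_cons]
    omega

/-! ### Fast evaluation -/

/-- Insert a term in an association list. -/
def ins (l : List ℕ) (a : ℕ) : List (List ℕ × ℕ) → List (List ℕ × ℕ)
  | [] => [(l, a)]
  | p :: v => if p.1 = l then (p.1, p.2 + a) :: v else p :: ins l a v

/-- The evaluation of an association list. -/
def ev (v : List (List ℕ × ℕ)) (F : List ℕ → ℕ) : ℕ := (v.map fun p => p.2 * F p.1).sum

lemma ev_ins (l : List ℕ) (a : ℕ) (v : List (List ℕ × ℕ)) (F : List ℕ → ℕ) :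
    ev (ins l a v) F = a * F l + ev v F := by
  induction v with
  | nil => simp [ins, ev]
  | cons p v ih =>
    rw [ins]
    split_ifs with h
    · subst h
      simp only [ev, List.map_cons, List.sum_cons]
      ring
    · simp only [ev, List.map_cons, List.sum_cons] at ih ⊢
      rw [ih]
      ring

/-- Insert many terms with the same coefficient. -/
def insAll (a : ℕ) : List (List ℕ) → List (List ℕ × ℕ) → List (List ℕ × ℕ)
  | [], v => v
  | l :: ls, v => insAll a ls (ins l a v)

lemma ev_insAll (a : ℕ) (ls : List (List ℕ)) (F : List ℕ → ℕ) : ∀ v,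
    ev (insAll a ls v) F = a * (ls.map F).sum + ev v F := by
  induction ls with
  | nil => intro v; simp [insAll]
  | cons l ls ih =>
    intro v
    rw [insAll, ih, ev_ins, List.map_cons, List.sum_cons]
    ring

/-- Remove a horizontal strip of size `b` in all possible ways. -/
def peelV (b : ℕ) : List (List ℕ × ℕ) → List (List ℕ × ℕ) → List (List ℕ × ℕ)
  | [], w => w
  | p :: v, w => peelV b v (insAll p.2 ((interl p.1).filter fun ν => p.1.sum - ν.sum = b) w)

lemma ev_peelV (b : ℕ) (β : List ℕ) (v : List (List ℕ × ℕ)) : ∀ w,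
    ev (peelV b v w) (cnt stepS initS β) =
      ev v (cnt stepS initS (b :: β)) + ev w (cnt stepS initS β) := by
  induction v with
  | nil => intro w; simp [peelV, ev]
  | cons p v ih =>
    intro w
    rw [peelV, ih, ev_insAll]
    have : ev (p :: v) (cnt stepS initS (b :: β)) =
        p.2 * cnt stepS initS (b :: β) p.1 + ev v (cnt stepS initS (b :: β)) := by
      simp [ev]
    rw [this, cnt_cons, stp_stepS, Multiset.map_coe, Multiset.sum_coe]
    ring

/-- Successive removal. -/
def peelAll : List ℕ → List (List ℕ × ℕ) → List (List ℕ × ℕ)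
  | [], v => v
  | b :: β, v => peelAll β (peelV b v [])

lemma ev_peelAll (β : List ℕ) : ∀ v,
    ev v (cnt stepS initS β) = ev (peelAll β v) initS := by
  induction β with
  | nil => intro v; rfl
  | cons b β ih =>
    intro v
    rw [peelAll, ← ih, ev_peelV]
    simp [ev]

end Pool.Agent.V11165.SNP
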